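import Mathlib

/-!
The field of rational functions over the field with two elements: squares, multiplicative
independence of X and 1 + X, and a unit equation.
-/

set_option autoImplicit false

namespace Pool.Agent.Y43.CH

open Polynomial

/-- the field of rational functions in one variable over the field with two elements -/
abbrev F : Type := RatFunc (ZMod 2)

/-- the variable -/
noncomputable def xx : F := RatFunc.X

/-- one plus the variable -/
noncomputable def yy : F := 1 + RatFunc.X

instance : CharP F 2 := by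
  have h : CharP (ZMod 2)[X] 2 := inferInstance
  exact charP_of_injective_algebraMap (R := (ZMod 2)[X]) (A := F)
    (RatFunc.algebraMap_injective (ZMod 2)) 2

theorem add_self (z : F) : z + z = 0 := CharTwo.add_self_eq_zero z

theorem sq_add (z w : F) : (z + w) ^ 2 = z ^ 2 + w ^ 2 := by
  have := add_self (z * w)
  linear_combination this

theorem eq_of_add {z w : F} (h : z + w = 0) : z = w := by
  have := add_self w
  linear_combination h - this

theorem sq_inj {z w : F} (h : z ^ 2 = w ^ 2) : z = w := by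
  apply eq_of_add
  have h2 : (z + w) ^ 2 = 0 := by
    rw [sq_add, h, add_self]
  exact pow_eq_zero_iff (two_ne_zero) |>.mp h2

theorem xx_ne : xx ≠ 0 := RatFunc.X_ne_zero

theorem yy_eq : yy = algebraMap (ZMod 2)[X] F (1 + X) := by
  rw [yy, map_add, map_one, RatFunc.algebraMap_X]

theorem xx_eq : xx = algebraMap (ZMod 2)[X] F X := by
  rw [xx, RatFunc.algebraMap_X]

theorem deg_poly : (1 + X : (ZMod 2)[X]).natDegree = 1 := by
  have : (1 + X : (ZMod 2)[X]) = X + C 1 := by rw [C_1, add_comm]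
  rw [this]
  exact natDegree_X_add_C 1

theorem yy_ne : yy ≠ 0 := by
  rw [yy_eq]
  intro h
  have h2 := (map_eq_zero_iff _ (RatFunc.algebraMap_injective (ZMod 2))).mp h
  have h3 := deg_poly
  rw [h2] at h3
  simp at h3

theorem deg_xx : RatFunc.intDegree xx = 1 := by
  rw [xx, RatFunc.intDegree_X]

theorem deg_yy : RatFunc.intDegree yy = 1 := by
  rw [yy_eq, RatFunc.intDegree_polynomial, deg_poly]
  rfl

theorem deg_pow (z : F) (hz : z ≠ 0) (n : ℕ) :
    RatFunc.intDegree (z ^ n) = n * RatFunc.intDegree z := by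
  induction n with
  | zero => simp
  | succ n ih =>
    rw [pow_succ, RatFunc.intDegree_mul (pow_ne_zero _ hz) hz, ih]
    push_cast
    ring

theorem deg_zpow (z : F) (hz : z ≠ 0) (n : ℤ) :
    RatFunc.intDegree (z ^ n) = n * RatFunc.intDegree z := by
  cases n with
  | ofNat n =>
    rw [Int.ofNat_eq_natCast, zpow_natCast, deg_pow z hz]
  | negSucc n =>
    rw [zpow_negSucc, RatFunc.intDegree_inv, deg_pow z hz, Int.negSucc_eq]
    push_cast
    ring

/-- the variable is not a square -/
theorem not_sq {z w : F} (h : z ^ 2 = xx * w ^ 2) : z = 0 ∧ w = 0 := by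
  by_cases hw : w = 0
  · subst hw
    simp at h
    exact ⟨h, rfl⟩
  · exfalso
    have hz : z ≠ 0 := by
      rintro rfl
      have h2 : xx * w ^ 2 = 0 := by rw [← h]; simp
      rcases mul_eq_zero.mp h2 with h3 | h3
      · exact xx_ne h3
      · exact hw (pow_eq_zero_iff two_ne_zero |>.mp h3)
    have h2 := congrArg RatFunc.intDegree h
    rw [RatFunc.intDegree_mul xx_ne (pow_ne_zero _ hw), deg_pow z hz, deg_pow w hw, deg_xx] at h2
    push_cast at h2
    omega

theorem pow_ne {n : ℕ} (hn : n ≠ 0) : xx ^ n ≠ yy ^ n := by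
  rw [xx_eq, yy_eq, ← map_pow, ← map_pow]
  intro h
  have h2 := RatFunc.algebraMap_injective (ZMod 2) h
  have h3 := congrArg (Polynomial.eval 0) h2
  simp [hn] at h3

/-- multiplicative independence of `x` and `1 + x` -/
theorem indep {i j : ℤ} (h : xx ^ i * yy ^ j = 1) : i = 0 ∧ j = 0 := by
  have hd := congrArg RatFunc.intDegree h
  rw [RatFunc.intDegree_mul (zpow_ne_zero _ xx_ne) (zpow_ne_zero _ yy_ne), deg_zpow _ xx_ne,
    deg_zpow _ yy_ne, deg_xx, deg_yy, RatFunc.intDegree_one] at hd
  have hj : j = -i := by omega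
  subst hj
  have h1 : xx ^ i = yy ^ i := by
    rw [zpow_neg] at h
    exact (mul_inv_eq_one₀ (zpow_ne_zero _ yy_ne)).mp h
  have h2 : i = 0 := by
    by_contra hi
    rcases Int.natAbs_eq i with h3 | h3
    · rw [h3, zpow_natCast, zpow_natCast] at h1
      exact pow_ne (by omega) h1
    · rw [h3, zpow_neg, zpow_neg, zpow_natCast, zpow_natCast] at h1
      exact pow_ne (n := i.natAbs) (by omega) (inv_injective h1)
  omega

theorem sq_zpow (z : F) (n : ℤ) : z ^ (2 * n) = (z ^ n) ^ 2 := by
  rw [mul_comm, zpow_mul]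
  rfl

theorem odd_zpow {z : F} (hz : z ≠ 0) (n : ℤ) : z ^ (2 * n + 1) = z * (z ^ n) ^ 2 := by
  rw [zpow_add₀ hz, sq_zpow, zpow_one, mul_comm]

/-- the unit equation -/
theorem unit_eq {i j k l : ℤ} (h : xx ^ k * yy ^ l = 1 + xx ^ i * yy ^ j) (hi : Odd i)
    (hk : Even k) : (i = 1 ∧ j = 0 ∧ k = 0 ∧ l = 1) ∨ (i = 1 ∧ j = -1 ∧ k = 0 ∧ l = -1) := by
  obtain ⟨i', rfl⟩ := hi
  obtain ⟨k', hk'⟩ := hk
  have hk2 : k = 2 * k' := by omega
  subst hk2
  have hy : yy = 1 + xx := rfl
  have hx1 : xx ≠ 0 := xx_ne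
  have hs0 : ∀ a b : ℤ, xx ^ a * yy ^ b ≠ 0 :=
    fun a b => mul_ne_zero (zpow_ne_zero _ xx_ne) (zpow_ne_zero _ yy_ne)
  rcases Int.even_or_odd' j with ⟨j', hj | hj⟩ <;> rcases Int.even_or_odd' l with ⟨l', hl | hl⟩
  · -- j even, l even
    exfalso
    subst hj hl
    have h1 : (1 + xx ^ k' * yy ^ l') ^ 2 = xx * (xx ^ i' * yy ^ j') ^ 2 := by
      rw [sq_add, mul_pow, mul_pow, ← sq_zpow, ← sq_zpow, h, odd_zpow hx1, sq_zpow]
      have := add_self (1 : F)
      linear_combination this
    exact hs0 _ _ (not_sq h1).2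
  · -- j even, l odd
    left
    subst hj hl
    have h1 : (1 + xx ^ k' * yy ^ l') ^ 2 = xx * (xx ^ i' * yy ^ j' + xx ^ k' * yy ^ l') ^ 2 := by
      rw [sq_zpow, odd_zpow yy_ne, odd_zpow hx1, sq_zpow] at h
      rw [sq_add, sq_add, mul_pow, mul_pow]
      have h2 : (1 + xx) * ((xx ^ k') ^ 2 * (yy ^ l') ^ 2) =
        1 + xx * ((xx ^ i') ^ 2 * (yy ^ j') ^ 2) := by
        rw [← hy]
        linear_combination h
      have h3 := add_self (1 : F)
      have h4 := add_self (xx * ((xx ^ k') ^ 2 * (yy ^ l') ^ 2))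
      linear_combination h2 + h3 - h4
    obtain ⟨h2, h3⟩ := not_sq h1
    have h4 : xx ^ k' * yy ^ l' = 1 := (eq_of_add h2).symm
    have h5 : xx ^ i' * yy ^ j' = 1 := by rw [eq_of_add h3, h4]
    have h6 := indep h4
    have h7 := indep h5
    omega
  · -- j odd, l even
    exfalso
    subst hj hl
    have h1 : (1 + xx ^ k' * yy ^ l' + xx * (xx ^ i' * yy ^ j')) ^ 2 =
        xx * (xx ^ i' * yy ^ j') ^ 2 := by
      rw [sq_zpow, odd_zpow yy_ne, odd_zpow hx1, sq_zpow] at h
      rw [sq_add, sq_add, mul_pow, mul_pow, mul_pow]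
      have h2 : (xx ^ k') ^ 2 * (yy ^ l') ^ 2 =
        1 + xx * (1 + xx) * ((xx ^ i') ^ 2 * (yy ^ j') ^ 2) := by
        rw [← hy]
        linear_combination h
      have h3 := add_self (1 : F)
      have h4 := add_self (xx ^ 2 * ((xx ^ i') ^ 2 * (yy ^ j') ^ 2))
      linear_combination h2 + h3 + h4
    exact hs0 _ _ (not_sq h1).2
  · -- j odd, l odd
    right
    subst hj hl
    have h1 : (1 + xx ^ k' * yy ^ l' + xx * (xx ^ i' * yy ^ j')) ^ 2 =
        xx * (xx ^ i' * yy ^ j' + xx ^ k' * yy ^ l') ^ 2 := by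
      rw [sq_zpow, odd_zpow yy_ne, odd_zpow hx1, odd_zpow yy_ne] at h
      rw [sq_add, sq_add, sq_add, mul_pow, mul_pow, mul_pow]
      have h2 : (1 + xx) * ((xx ^ k') ^ 2 * (yy ^ l') ^ 2) =
        1 + xx * (1 + xx) * ((xx ^ i') ^ 2 * (yy ^ j') ^ 2) := by
        rw [← hy]
        linear_combination h
      have h3 := add_self (1 : F)
      have h4 := add_self (xx ^ 2 * ((xx ^ i') ^ 2 * (yy ^ j') ^ 2))
      have h5 := add_self (xx * ((xx ^ k') ^ 2 * (yy ^ l') ^ 2))
      linear_combination h2 + h3 + h4 - h5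
    obtain ⟨h2, h3⟩ := not_sq h1
    have h4 : xx ^ i' * yy ^ j' = xx ^ k' * yy ^ l' := eq_of_add h3
    have h5 : xx ^ k' * yy ^ (l' + 1) = 1 := by
      rw [h4] at h2
      rw [zpow_add₀ yy_ne, zpow_one, ← mul_assoc]
      have h6 : 1 + (1 + xx) * (xx ^ k' * yy ^ l') = 0 := by linear_combination h2
      rw [← hy] at h6
      have := eq_of_add h6
      linear_combination -this
    have h6 : xx ^ i' * yy ^ (j' + 1) = 1 := by
      rw [zpow_add₀ yy_ne, zpow_one, ← mul_assoc, h4, mul_assoc, ← zpow_add_one₀ yy_ne, h5]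
    have h7 := indep h5
    have h8 := indep h6
    omega

/-- distinct integral powers of `x` are linearly independent -/
theorem lin_indep (l : List ℤ) (hn : l.Nodup) (h : (l.map fun i => xx ^ i).sum = 0) : l = [] := by
  by_contra hne
  obtain ⟨i0, hi0⟩ := List.exists_mem_of_ne_nil l hne
  obtain ⟨m, hm⟩ : ∃ m : ℕ, ∀ i ∈ l, 0 ≤ i + m := by
    clear hn h hne hi0
    induction l with
    | nil => exact ⟨0, by simp⟩
    | cons a l ih =>
      obtain ⟨m, hm⟩ := ih
      refine ⟨m + a.natAbs, ?_⟩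
      intro i hi
      rcases List.mem_cons.mp hi with rfl | hi
      · push_cast
        have := neg_abs_le i
        omega
      · have := hm i hi
        push_cast
        have := abs_nonneg a
        omega
  have h1 : algebraMap (ZMod 2)[X] F ((l.map fun i : ℤ => (X : (ZMod 2)[X]) ^ (i + m).toNat).sum) = 0 := by
    rw [map_list_sum, List.map_map]
    have h2 : (l.map fun i => xx ^ i * xx ^ m).sum = 0 := by
      rw [List.sum_map_mul_right, h, zero_mul]
    rw [← h2]
    congr 1
    apply List.map_congr_left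
    intro i hi
    simp only [Function.comp_apply, map_pow]
    rw [← xx_eq, ← zpow_natCast, ← zpow_natCast, ← zpow_add₀ xx_ne, Int.toNat_of_nonneg (hm i hi)]
  have h2 := (map_eq_zero_iff _ (RatFunc.algebraMap_injective (ZMod 2))).mp h1
  have h3 := congrArg (fun p => Polynomial.coeff p (i0 + m).toNat) h2
  simp only [coeff_zero] at h3
  have h4 : ∀ l' : List ℤ, (∀ i ∈ l', i ∈ l) → l'.Nodup →
      ((l'.map fun i : ℤ => (X : (ZMod 2)[X]) ^ (i + m).toNat).sum).coeff (i0 + m).toNat =
        if i0 ∈ l' then 1 else 0 := by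
    intro l' hl' hn'
    induction l' with
    | nil => simp
    | cons a l' ih =>
      rw [List.map_cons, List.sum_cons, coeff_add, ih (fun i hi => hl' i (List.mem_cons_of_mem _ hi))
        (List.nodup_cons.mp hn').2, coeff_X_pow]
      have ha := hm a (hl' a List.mem_cons_self)
      have hi := hm i0 hi0
      by_cases hai : a = i0
      · subst hai
        have := (List.nodup_cons.mp hn').1
        simp [this]
      · have h5 : ¬ ((i0 + m).toNat = (a + m).toNat) := by omega
        have h6 : i0 ≠ a := fun h => hai h.symm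
        simp [h5, h6]
  rw [h4 l (fun i hi => hi) hn, if_pos hi0] at h3
  exact one_ne_zero h3

end Pool.Agent.Y43.CH
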