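import Mathlib
import Pool.Agent.Y43.CH.Fld

/-!
Baumslag's finitely presented metabelian group in characteristic two:
generators a, s, t, relations a^2 = 1, st = ts, [a, s a s^-1] = 1, t a t^-1 = a (s a s^-1).
-/

set_option autoImplicit false

namespace Pool.Agent.Y43.CH

/-- the three generators -/
inductive Gn : Type
  | a | s | t

instance : Finite Gn := by
  refine Finite.of_injective (fun g => match g with | .a => (0 : Fin 3) | .s => 1 | .t => 2) ?_
  intro x y h
  cases x <;> cases y <;> simp_all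

open FreeGroup in
/-- the four defining relations -/
def rels : Set (FreeGroup Gn) :=
  {of .a * of .a,
   of .s * of .t * (of .s)⁻¹ * (of .t)⁻¹,
   of .a * (of .s * of .a * (of .s)⁻¹) * (of .a)⁻¹ * (of .s * of .a * (of .s)⁻¹)⁻¹,
   of .t * of .a * (of .t)⁻¹ * (of .a * (of .s * of .a * (of .s)⁻¹))⁻¹}

instance : Finite rels := by
  unfold rels
  infer_instance

/-- Baumslag's group (characteristic two) -/
abbrev R : Type := PresentedGroup rels

/-- relations in a group -/
structure IsB {P : Type} [Group P] (a s t : P) : Prop where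
  h1 : a * a = 1
  h2 : Commute s t
  h3 : Commute a (s * a * s⁻¹)
  h4 : t * a * t⁻¹ = a * (s * a * s⁻¹)

/-- the universal property -/
theorem exists_hom {P : Type} [Group P] {a s t : P} (h : IsB a s t) :
    ∃ f : R →* P, f (PresentedGroup.of .a) = a ∧ f (PresentedGroup.of .s) = s ∧
      f (PresentedGroup.of .t) = t := by
  let f : Gn → P := fun g => match g with | .a => a | .s => s | .t => t
  have hf : ∀ r ∈ rels, FreeGroup.lift f r = 1 := by
    rintro r (rfl | rfl | rfl | rfl)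
    · simp only [map_mul, FreeGroup.lift_apply_of, f]
      exact h.h1
    · simp only [map_mul, map_inv, FreeGroup.lift_apply_of, f]
      rw [h.h2.eq]
      group
    · simp only [map_mul, map_inv, FreeGroup.lift_apply_of, f]
      rw [h.h3.eq]
      group
    · simp only [map_mul, map_inv, FreeGroup.lift_apply_of, f]
      rw [h.h4]
      group
  refine ⟨PresentedGroup.toGroup hf, ?_, ?_, ?_⟩
  · rw [PresentedGroup.toGroup.of]
  · rw [PresentedGroup.toGroup.of]
  · rw [PresentedGroup.toGroup.of]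

/-- the generator `a` -/
def ga : R := PresentedGroup.of .a
/-- the generator `s` -/
def gs : R := PresentedGroup.of .s
/-- the generator `t` -/
def gt : R := PresentedGroup.of .t

theorem isB : IsB ga gs gt := by
  refine ⟨?_, ?_, ?_, ?_⟩
  · exact PresentedGroup.one_of_mem (rels := rels) (Or.inl rfl)
  · have := PresentedGroup.one_of_mem (rels := rels) (Or.inr (Or.inl rfl))
    rw [map_mul, map_mul, map_mul, map_inv, map_inv, mul_inv_eq_one, mul_inv_eq_iff_eq_mul] at this
    exact this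
  · have := PresentedGroup.one_of_mem (rels := rels) (Or.inr (Or.inr (Or.inl rfl)))
    simp only [map_mul, map_inv] at this
    rw [mul_inv_eq_one, mul_inv_eq_iff_eq_mul] at this
    exact this
  · have := PresentedGroup.one_of_mem (rels := rels) (Or.inr (Or.inr (Or.inr rfl)))
    simp only [map_mul, map_inv] at this
    rw [mul_inv_eq_one] at this
    exact this

theorem hom_ext' {P : Type} [Group P] {f g : R →* P} (h1 : f ga = g ga) (h2 : f gs = g gs)
    (h3 : f gt = g gt) : f = g := by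
  apply PresentedGroup.ext
  intro x
  cases x
  · exact h1
  · exact h2
  · exact h3

theorem closure_gens : Subgroup.closure ({ga, gs, gt} : Set R) = ⊤ := by
  rw [← PresentedGroup.closure_range_of rels]
  congr 1
  ext x
  constructor
  · rintro (rfl | rfl | rfl)
    · exact ⟨.a, rfl⟩
    · exact ⟨.s, rfl⟩
    · exact ⟨.t, rfl⟩
  · rintro ⟨g, rfl⟩
    cases g
    · exact Or.inl rfl
    · exact Or.inr (Or.inl rfl)
    · exact Or.inr (Or.inr rfl)

section conj

variable {P : Type} [Group P] {a s t : P}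

/-- conjugates of `a` by the powers of `s` -/
def cj (a s : P) (i : ℤ) : P := s ^ i * a * (s ^ i)⁻¹

theorem cj_zero : cj a s 0 = a := by simp [cj]

theorem cj_conj_s (i j : ℤ) : s ^ j * cj a s i * (s ^ j)⁻¹ = cj a s (j + i) := by
  rw [cj, cj, zpow_add]
  group

theorem cj_sq (h : IsB a s t) (i : ℤ) : cj a s i * cj a s i = 1 := by
  have : cj a s i * cj a s i = s ^ i * (a * a) * (s ^ i)⁻¹ := by rw [cj]; group
  rw [this, h.h1]
  group

theorem cj_conj_t (h : IsB a s t) (i : ℤ) :
    t * cj a s i * t⁻¹ = cj a s i * cj a s (i + 1) := by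
  have h1 : t * s ^ i = s ^ i * t := (h.h2.zpow_left i).eq.symm
  have h2 : t * cj a s i * t⁻¹ = s ^ i * (t * a * t⁻¹) * (s ^ i)⁻¹ := by
    have : t * cj a s i * t⁻¹ = (t * s ^ i) * a * (t * s ^ i)⁻¹ := by rw [cj]; group
    rw [this, h1]
    group
  rw [h2, h.h4, cj, cj, zpow_add, zpow_one]
  group

theorem cj_comm_nat (h : IsB a s t) (n : ℕ) : ∀ i : ℤ, Commute (cj a s i) (cj a s (i + n)) := by
  induction n using Nat.strong_induction_on with
  | _ n ih =>
    match n, ih with
    | 0, _ =>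
      intro i
      rw [Nat.cast_zero, add_zero]
    | 1, _ =>
      intro i
      have h1 : Commute (s ^ i * a * (s ^ i)⁻¹) (s ^ i * (s * a * s⁻¹) * (s ^ i)⁻¹) := by
        have := h.h3.eq
        change _ * _ = _ * _
        have e1 : s ^ i * a * (s ^ i)⁻¹ * (s ^ i * (s * a * s⁻¹) * (s ^ i)⁻¹) =
          s ^ i * (a * (s * a * s⁻¹)) * (s ^ i)⁻¹ := by group
        have e2 : s ^ i * (s * a * s⁻¹) * (s ^ i)⁻¹ * (s ^ i * a * (s ^ i)⁻¹) =
          s ^ i * (s * a * s⁻¹ * a) * (s ^ i)⁻¹ := by group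
        rw [e1, e2, this]
      have h2 : cj a s (i + (1 : ℕ)) = s ^ i * (s * a * s⁻¹) * (s ^ i)⁻¹ := by
        rw [cj, Nat.cast_one, zpow_add, zpow_one]
        group
      rw [h2]
      exact h1
    | n + 2, ih =>
      intro i
      have c1 := ih (n + 1) (by omega) i
      have c2 : Commute (cj a s (i + 1)) (cj a s (i + (n + 1 : ℕ))) := by
        have := ih n (by omega) (i + 1)
        have e : i + 1 + (n : ℤ) = i + (n + 1 : ℕ) := by push_cast; ring
        rw [e] at this
        exact this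
      have c3 : Commute (cj a s (i + 1)) (cj a s (i + (n + 2 : ℕ))) := by
        have := ih (n + 1) (by omega) (i + 1)
        have e : i + 1 + ((n + 1 : ℕ) : ℤ) = i + (n + 2 : ℕ) := by push_cast; ring
        rw [e] at this
        exact this
      have e0 : cj a s (i + (n + 1 : ℕ) + 1) = cj a s (i + (n + 2 : ℕ)) := by
        congr 1
        push_cast
        ring
      have c4 : Commute (cj a s i * cj a s (i + 1))
          (cj a s (i + (n + 1 : ℕ)) * cj a s (i + (n + 2 : ℕ))) := by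
        rw [← cj_conj_t h, ← e0, ← cj_conj_t h]
        exact c1.conj t
      have e1 : cj a s i * cj a s (i + 1) * (cj a s (i + (n + 1 : ℕ)) * cj a s (i + (n + 2 : ℕ))) =
          cj a s (i + (n + 1 : ℕ)) * (cj a s i * cj a s (i + (n + 2 : ℕ))) * cj a s (i + 1) := by
        rw [mul_assoc, ← mul_assoc (cj a s (i + 1)), c2.eq, mul_assoc (cj a s (i + (n + 1 : ℕ))),
          c3.eq, ← mul_assoc, c1.eq]
        group
      have e2 : cj a s (i + (n + 1 : ℕ)) * cj a s (i + (n + 2 : ℕ)) * (cj a s i * cj a s (i + 1)) =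
          cj a s (i + (n + 1 : ℕ)) * (cj a s (i + (n + 2 : ℕ)) * cj a s i) * cj a s (i + 1) := by
        group
      have e3 := c4.eq
      rw [e1, e2] at e3
      exact mul_left_cancel (mul_right_cancel e3)

theorem cj_comm (h : IsB a s t) (i j : ℤ) : Commute (cj a s i) (cj a s j) := by
  rcases le_total i j with hij | hij
  · have := cj_comm_nat h (j - i).toNat i
    rw [Int.toNat_of_nonneg (by omega), add_sub_cancel] at this
    exact this
  · have := cj_comm_nat h (i - j).toNat j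
    rw [Int.toNat_of_nonneg (by omega), add_sub_cancel] at this
    exact this.symm

/-- the subgroup generated by the conjugates of `a` by powers of `s` -/
def BB (a s : P) : Subgroup P := Subgroup.closure (Set.range (cj a s))

theorem BB_comm (h : IsB a s t) {x y : P} (hx : x ∈ BB a s) (hy : y ∈ BB a s) : Commute x y := by
  have h1 : ∀ i, ∀ y ∈ BB a s, Commute (cj a s i) y := by
    intro i y hy
    induction hy using Subgroup.closure_induction with
    | mem y hy =>
      obtain ⟨j, rfl⟩ := hy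
      exact cj_comm h i j
    | one => exact Commute.one_right _
    | mul y z _ _ hy hz => exact hy.mul_right hz
    | inv y _ hy => exact hy.inv_right
  induction hx using Subgroup.closure_induction with
  | mem x hx =>
    obtain ⟨j, rfl⟩ := hx
    exact h1 j y hy
  | one => exact Commute.one_left _
  | mul x z _ _ hx hz => exact hx.mul_left hz
  | inv x _ hx => exact hx.inv_left

theorem BB_sq (h : IsB a s t) {x : P} (hx : x ∈ BB a s) : x * x = 1 := by
  induction hx using Subgroup.closure_induction with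
  | mem x hx =>
    obtain ⟨j, rfl⟩ := hx
    exact cj_sq h j
  | one => exact one_mul 1
  | mul x y hx' hy' hx hy =>
    have := (BB_comm h hx' hy').eq
    calc x * y * (x * y) = x * (y * x) * y := by group
      _ = x * (x * y) * y := by rw [this]
      _ = (x * x) * (y * y) := by group
      _ = 1 := by rw [hx, hy, one_mul]
  | inv x _ hx =>
    rw [← mul_inv_rev, hx, inv_one]

theorem a_mem_BB : a ∈ BB a s := by
  have : cj a s 0 ∈ BB a s := Subgroup.subset_closure ⟨0, rfl⟩
  rwa [cj_zero] at this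

theorem BB_conj_s (j : ℤ) {x : P} (hx : x ∈ BB a s) : s ^ j * x * (s ^ j)⁻¹ ∈ BB a s := by
  induction hx using Subgroup.closure_induction with
  | mem x hx =>
    obtain ⟨i, rfl⟩ := hx
    rw [cj_conj_s]
    exact Subgroup.subset_closure ⟨_, rfl⟩
  | one => simp [one_mem]
  | mul x y _ _ hx hy =>
    have : s ^ j * (x * y) * (s ^ j)⁻¹ = (s ^ j * x * (s ^ j)⁻¹) * (s ^ j * y * (s ^ j)⁻¹) := by
      group
    rw [this]
    exact mul_mem hx hy
  | inv x _ hx =>
    have : s ^ j * x⁻¹ * (s ^ j)⁻¹ = (s ^ j * x * (s ^ j)⁻¹)⁻¹ := by group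
    rw [this]
    exact inv_mem hx

theorem BB_conj_t (h : IsB a s t) {x : P} (hx : x ∈ BB a s) : t * x * t⁻¹ ∈ BB a s := by
  induction hx using Subgroup.closure_induction with
  | mem x hx =>
    obtain ⟨i, rfl⟩ := hx
    rw [cj_conj_t h]
    exact mul_mem (Subgroup.subset_closure ⟨_, rfl⟩) (Subgroup.subset_closure ⟨_, rfl⟩)
  | one => simp [one_mem]
  | mul x y _ _ hx hy =>
    have : t * (x * y) * t⁻¹ = (t * x * t⁻¹) * (t * y * t⁻¹) := by group
    rw [this]
    exact mul_mem hx hy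
  | inv x _ hx =>
    have : t * x⁻¹ * t⁻¹ = (t * x * t⁻¹)⁻¹ := by group
    rw [this]
    exact inv_mem hx

theorem BB_conj_tpow (h : IsB a s t) {x : P} (k : ℕ) (hx : x ∈ BB a s) :
    t ^ k * x * (t ^ k)⁻¹ ∈ BB a s := by
  induction k with
  | zero => simpa using hx
  | succ k ih =>
    have : t ^ (k + 1) * x * (t ^ (k + 1))⁻¹ = t * (t ^ k * x * (t ^ k)⁻¹) * t⁻¹ := by
      rw [pow_succ']
      group
    rw [this]
    exact BB_conj_t h ih

theorem BB_mono (h : IsB a s t) {x : P} {m k : ℕ} (hmk : m ≤ k)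
    (hx : t ^ m * x * (t ^ m)⁻¹ ∈ BB a s) : t ^ k * x * (t ^ k)⁻¹ ∈ BB a s := by
  obtain ⟨d, rfl⟩ := Nat.exists_eq_add_of_le hmk
  have : t ^ (m + d) * x * (t ^ (m + d))⁻¹ = t ^ d * (t ^ m * x * (t ^ m)⁻¹) * (t ^ d)⁻¹ := by
    rw [add_comm, pow_add]
    group
  rw [this]
  exact BB_conj_tpow h d hx

/-- the normal closure of `a` -/
def NN (h : IsB a s t) : Subgroup P where
  carrier := {x | ∃ m : ℕ, t ^ m * x * (t ^ m)⁻¹ ∈ BB a s}
  one_mem' := ⟨0, by simp [one_mem]⟩
  mul_mem' := by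
    rintro x y ⟨m, hm⟩ ⟨k, hk⟩
    refine ⟨max m k, ?_⟩
    have : t ^ (max m k) * (x * y) * (t ^ (max m k))⁻¹ =
        (t ^ (max m k) * x * (t ^ (max m k))⁻¹) * (t ^ (max m k) * y * (t ^ (max m k))⁻¹) := by
      group
    rw [this]
    exact mul_mem (BB_mono h (le_max_left _ _) hm) (BB_mono h (le_max_right _ _) hk)
  inv_mem' := by
    rintro x ⟨m, hm⟩
    refine ⟨m, ?_⟩
    have : t ^ m * x⁻¹ * (t ^ m)⁻¹ = (t ^ m * x * (t ^ m)⁻¹)⁻¹ := by group
    rw [this]
    exact inv_mem hm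

theorem mem_NN (h : IsB a s t) {x : P} : x ∈ NN h ↔ ∃ m : ℕ, t ^ m * x * (t ^ m)⁻¹ ∈ BB a s :=
  Iff.rfl

theorem NN_comm (h : IsB a s t) {x y : P} (hx : x ∈ NN h) (hy : y ∈ NN h) : Commute x y := by
  obtain ⟨m, hm⟩ := hx
  obtain ⟨k, hk⟩ := hy
  have h1 := BB_comm h (BB_mono h (le_max_left m k) hm) (BB_mono h (le_max_right m k) hk)
  exact (Commute.conj_iff _).mp h1

theorem NN_sq (h : IsB a s t) {x : P} (hx : x ∈ NN h) : x * x = 1 := by
  obtain ⟨m, hm⟩ := hx
  have h1 := BB_sq h hm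
  have h2 : t ^ m * x * (t ^ m)⁻¹ * (t ^ m * x * (t ^ m)⁻¹) = t ^ m * (x * x) * (t ^ m)⁻¹ := by group
  rw [h2] at h1
  have h3 := congrArg (fun z => (t ^ m)⁻¹ * z * t ^ m) h1
  simp only [mul_one, inv_mul_cancel] at h3
  rw [← h3]
  group

theorem BB_le_NN (h : IsB a s t) : BB a s ≤ NN h := fun x hx => ⟨0, by simpa using hx⟩

theorem NN_conj_s (h : IsB a s t) (j : ℤ) {x : P} (hx : x ∈ NN h) :
    s ^ j * x * (s ^ j)⁻¹ ∈ NN h := by
  obtain ⟨m, hm⟩ := hx
  refine ⟨m, ?_⟩
  have hc : t ^ m * s ^ j = s ^ j * t ^ m := ((h.h2.zpow_left j).pow_right m).eq.symm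
  have : t ^ m * (s ^ j * x * (s ^ j)⁻¹) * (t ^ m)⁻¹ =
      s ^ j * (t ^ m * x * (t ^ m)⁻¹) * (s ^ j)⁻¹ := by
    have e : t ^ m * (s ^ j * x * (s ^ j)⁻¹) * (t ^ m)⁻¹ =
      (t ^ m * s ^ j) * x * (t ^ m * s ^ j)⁻¹ := by group
    rw [e, hc]
    group
  rw [this]
  exact BB_conj_s j hm

theorem NN_conj_t (h : IsB a s t) {x : P} (hx : x ∈ NN h) : t * x * t⁻¹ ∈ NN h := by
  obtain ⟨m, hm⟩ := hx
  refine ⟨m, ?_⟩
  have : t ^ m * (t * x * t⁻¹) * (t ^ m)⁻¹ = t ^ 1 * (t ^ m * x * (t ^ m)⁻¹) * (t ^ 1)⁻¹ := by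
    group
  rw [this]
  exact BB_conj_tpow h 1 hm

theorem NN_conj_t' (h : IsB a s t) {x : P} (hx : x ∈ NN h) : t⁻¹ * x * t ∈ NN h := by
  obtain ⟨m, hm⟩ := hx
  refine ⟨m + 1, ?_⟩
  have : t ^ (m + 1) * (t⁻¹ * x * t) * (t ^ (m + 1))⁻¹ = t ^ m * x * (t ^ m)⁻¹ := by
    rw [pow_succ]
    group
  rw [this]
  exact hm

theorem NN_conj_tz (h : IsB a s t) (j : ℤ) {x : P} (hx : x ∈ NN h) :
    t ^ j * x * (t ^ j)⁻¹ ∈ NN h := by
  induction j using Int.induction_on with
  | zero => simpa using hx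
  | succ i ih =>
    have : t ^ ((i : ℤ) + 1) * x * (t ^ ((i : ℤ) + 1))⁻¹ =
        t * (t ^ (i : ℤ) * x * (t ^ (i : ℤ))⁻¹) * t⁻¹ := by
      rw [add_comm, zpow_add, zpow_one]
      group
    rw [this]
    exact NN_conj_t h ih
  | pred i ih =>
    have : t ^ (-(i : ℤ) - 1) * x * (t ^ (-(i : ℤ) - 1))⁻¹ =
        t⁻¹ * (t ^ (-(i : ℤ)) * x * (t ^ (-(i : ℤ)))⁻¹) * t := by
      rw [sub_eq_add_neg, add_comm, zpow_add, zpow_neg_one]
      group
    rw [this]
    exact NN_conj_t' h ih

end conj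

end Pool.Agent.Y43.CH
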