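import Mathlib
import Pool.Agent.Y43.CH.Bau

/-!
Baumslag's group in characteristic two: the affine representation, torsion, the Frobenius
endomorphism.
-/

set_option autoImplicit false

namespace Pool.Agent.Y43.CH

/-- the normal closure of `a` in Baumslag's group -/
def N : Subgroup R := NN isB

theorem ga_mem : ga ∈ N := BB_le_NN isB a_mem_BB

theorem N_conj_closure (g : R) : ∀ x ∈ N, g * x * g⁻¹ ∈ N := by
  have hg : g ∈ Subgroup.closure ({ga, gs, gt} : Set R) := by
    rw [closure_gens]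
    trivial
  have key : ∀ x, (x ∈ N ↔ g * x * g⁻¹ ∈ N) := by
    induction hg using Subgroup.closure_induction with
    | mem g hg =>
      intro x
      rcases hg with rfl | rfl | rfl
      · constructor
        · intro hx
          exact mul_mem (mul_mem ga_mem hx) (inv_mem ga_mem)
        · intro hx
          have := mul_mem (mul_mem (inv_mem ga_mem) hx) ga_mem
          have e : ga⁻¹ * (ga * x * ga⁻¹) * ga = x := by group
          rwa [e] at this
      · constructor
        · intro hx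
          have := NN_conj_s isB 1 hx
          rwa [zpow_one] at this
        · intro hx
          have := NN_conj_s isB (-1) hx
          have e : gs ^ (-1 : ℤ) * (gs * x * gs⁻¹) * (gs ^ (-1 : ℤ))⁻¹ = x := by group
          rwa [e] at this
      · constructor
        · intro hx
          exact NN_conj_t isB hx
        · intro hx
          have := NN_conj_t' isB hx
          have e : gt⁻¹ * (gt * x * gt⁻¹) * gt = x := by group
          rwa [e] at this
    | one => intro x; simp
    | mul g k _ _ hg hk =>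
      intro x
      rw [hk x, hg (k * x * k⁻¹)]
      have e : g * (k * x * k⁻¹) * g⁻¹ = g * k * x * (g * k)⁻¹ := by group
      rw [e]
    | inv g _ hg =>
      intro x
      rw [hg (g⁻¹ * x * g⁻¹⁻¹)]
      have e : g * (g⁻¹ * x * g⁻¹⁻¹) * g⁻¹ = x := by group
      rw [e]
  intro x hx
  exact (key x).mp hx

instance : N.Normal := ⟨fun x hx g => N_conj_closure g x hx⟩

theorem N_comm {x y : R} (hx : x ∈ N) (hy : y ∈ N) : Commute x y := NN_comm isB hx hy

theorem N_sq {x : R} (hx : x ∈ N) : x * x = 1 := NN_sq isB hx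

/-- normal forms -/
theorem exists_nf (g : R) : ∃ n ∈ N, ∃ i j : ℤ, g = n * gs ^ i * gt ^ j := by
  have hg : g ∈ Subgroup.closure ({ga, gs, gt} : Set R) := by
    rw [closure_gens]
    trivial
  have hst : ∀ i j : ℤ, Commute (gs ^ i) (gt ^ j) := fun i j =>
    (isB.h2.zpow_left i).zpow_right j
  induction hg using Subgroup.closure_induction with
  | mem g hg =>
    rcases hg with rfl | rfl | rfl
    · exact ⟨ga, ga_mem, 0, 0, by simp⟩
    · exact ⟨1, one_mem _, 1, 0, by simp⟩
    · exact ⟨1, one_mem _, 0, 1, by simp⟩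
  | one => exact ⟨1, one_mem _, 0, 0, by simp⟩
  | mul g k _ _ hg hk =>
    obtain ⟨n, hn, i, j, rfl⟩ := hg
    obtain ⟨n', hn', i', j', rfl⟩ := hk
    refine ⟨n * ((gs ^ i * gt ^ j) * n' * (gs ^ i * gt ^ j)⁻¹), mul_mem hn
      (N_conj_closure _ _ hn'), i + i', j + j', ?_⟩
    rw [zpow_add, zpow_add]
    have h1 := (hst i' j).eq
    calc n * gs ^ i * gt ^ j * (n' * gs ^ i' * gt ^ j')
        = n * (gs ^ i * gt ^ j * n' * (gs ^ i * gt ^ j)⁻¹) *
            (gs ^ i * (gt ^ j * gs ^ i') * gt ^ j') := by group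
      _ = n * (gs ^ i * gt ^ j * n' * (gs ^ i * gt ^ j)⁻¹) *
            (gs ^ i * (gs ^ i' * gt ^ j) * gt ^ j') := by rw [h1]
      _ = _ := by simp only [mul_assoc]
  | inv g _ hg =>
    obtain ⟨n, hn, i, j, rfl⟩ := hg
    refine ⟨(gs ^ i * gt ^ j)⁻¹ * n⁻¹ * (gs ^ i * gt ^ j)⁻¹⁻¹,
      N_conj_closure _ _ (inv_mem hn), -i, -j, ?_⟩
    have h1 := (hst i j).eq
    rw [zpow_neg, zpow_neg]
    have h2 : (gs ^ i)⁻¹ * (gt ^ j)⁻¹ = (gs ^ i * gt ^ j)⁻¹ := by
      rw [← mul_inv_rev, h1]
    rw [mul_assoc _ (gs ^ i)⁻¹, h2]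
    group

theorem isB_l1 : IsB (1 : Multiplicative ℤ) (Multiplicative.ofAdd 1) 1 :=
  ⟨one_mul 1, Commute.one_right _, Commute.one_left _, by simp⟩

theorem isB_l2 : IsB (1 : Multiplicative ℤ) 1 (Multiplicative.ofAdd 1) :=
  ⟨one_mul 1, Commute.one_left _, Commute.one_left _, by simp⟩

/-- exponent sum of `s` -/
noncomputable def l1 : R →* Multiplicative ℤ := Classical.choose (exists_hom isB_l1)
theorem l1_a : l1 ga = 1 := (Classical.choose_spec (exists_hom isB_l1)).1
theorem l1_s : l1 gs = Multiplicative.ofAdd 1 := (Classical.choose_spec (exists_hom isB_l1)).2.1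
theorem l1_t : l1 gt = 1 := (Classical.choose_spec (exists_hom isB_l1)).2.2

/-- exponent sum of `t` -/
noncomputable def l2 : R →* Multiplicative ℤ := Classical.choose (exists_hom isB_l2)
theorem l2_a : l2 ga = 1 := (Classical.choose_spec (exists_hom isB_l2)).1
theorem l2_s : l2 gs = 1 := (Classical.choose_spec (exists_hom isB_l2)).2.1
theorem l2_t : l2 gt = Multiplicative.ofAdd 1 := (Classical.choose_spec (exists_hom isB_l2)).2.2

theorem N_le_ker {M : Type} [CommGroup M] (f : R →* M) (hf : f ga = 1) {x : R} (hx : x ∈ N) :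
    f x = 1 := by
  obtain ⟨m, hm⟩ := hx
  have h1 : ∀ y ∈ BB ga gs, f y = 1 := by
    intro y hy
    induction hy using Subgroup.closure_induction with
    | mem y hy =>
      obtain ⟨i, rfl⟩ := hy
      rw [cj, map_mul, map_mul, hf, map_inv, mul_one, mul_inv_cancel]
    | one => exact map_one f
    | mul y z _ _ hy hz => rw [map_mul, hy, hz, one_mul]
    | inv y _ hy => rw [map_inv, hy, inv_one]
  have h2 := h1 _ hm
  rw [map_mul, map_mul, map_inv, mul_comm (f (gt ^ m)), mul_inv_cancel_right] at h2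
  exact h2

theorem l1_nf {n : R} (hn : n ∈ N) (i j : ℤ) :
    l1 (n * gs ^ i * gt ^ j) = Multiplicative.ofAdd i := by
  rw [map_mul, map_mul, N_le_ker l1 l1_a hn, map_zpow, map_zpow, l1_s, l1_t, one_zpow, one_mul,
    mul_one, ← ofAdd_zsmul, smul_eq_mul, mul_one]

theorem l2_nf {n : R} (hn : n ∈ N) (i j : ℤ) :
    l2 (n * gs ^ i * gt ^ j) = Multiplicative.ofAdd j := by
  rw [map_mul, map_mul, N_le_ker l2 l2_a hn, map_zpow, map_zpow, l2_s, l2_t, one_zpow, one_mul,
    one_mul, ← ofAdd_zsmul, smul_eq_mul, mul_one]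

theorem mem_N_iff (g : R) : g ∈ N ↔ l1 g = 1 ∧ l2 g = 1 := by
  constructor
  · intro h
    exact ⟨N_le_ker l1 l1_a h, N_le_ker l2 l2_a h⟩
  · rintro ⟨h1, h2⟩
    obtain ⟨n, hn, i, j, rfl⟩ := exists_nf g
    rw [l1_nf hn] at h1
    rw [l2_nf hn] at h2
    have hi : i = 0 := ofAdd_eq_one.mp h1
    have hj : j = 0 := ofAdd_eq_one.mp h2
    subst hi hj
    simpa using hn

theorem mul_tf (z : Multiplicative ℤ) (n : ℕ) (hn : n ≠ 0) (h : z ^ n = 1) : z = 1 := by
  have h2 : n • z.toAdd = 0 := by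
    rw [← toAdd_pow, h]
    rfl
  rcases smul_eq_zero.mp h2 with h3 | h3
  · exact absurd h3 hn
  · exact Multiplicative.toAdd.injective h3

/-- torsion elements of Baumslag's group lie in `N` -/
theorem torsion_mem (g : R) (n : ℕ) (hn : n ≠ 0) (h : g ^ n = 1) : g ∈ N := by
  rw [mem_N_iff]
  constructor
  · exact mul_tf _ n hn (by rw [← map_pow, h, map_one])
  · exact mul_tf _ n hn (by rw [← map_pow, h, map_one])

/-- no odd torsion -/
theorem odd_torsion (g : R) (n : ℕ) (h : g ^ (2 * n + 1) = 1) : g = 1 := by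
  have h1 := N_sq (torsion_mem g _ (by omega) h)
  rw [pow_succ, pow_mul, sq, h1, one_pow, one_mul] at h
  exact h

theorem isB_aff : IsB (Equiv.addRight (1 : F)) (Equiv.mulLeft₀ xx xx_ne)
    (Equiv.mulLeft₀ yy yy_ne) := by
  refine ⟨?_, ?_, ?_, ?_⟩
  · ext z
    simp only [Equiv.Perm.mul_apply, Equiv.coe_addRight, Equiv.Perm.one_apply]
    rw [add_assoc, add_self, add_zero]
  · ext z
    simp only [Equiv.Perm.mul_apply, Equiv.mulLeft₀_apply]
    ring
  · ext z
    simp only [Equiv.Perm.mul_apply, Equiv.coe_addRight, Equiv.mulLeft₀_apply,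
      Equiv.Perm.inv_def, Equiv.mulLeft₀_symm_apply]
    have := xx_ne
    field_simp
    ring
  · ext z
    simp only [Equiv.Perm.mul_apply, Equiv.coe_addRight, Equiv.mulLeft₀_apply,
      Equiv.Perm.inv_def, Equiv.mulLeft₀_symm_apply]
    rw [mul_add, mul_inv_cancel_left₀ yy_ne, mul_add, mul_inv_cancel_left₀ xx_ne, yy, xx]
    ring

/-- the affine representation -/
noncomputable def ff : R →* Equiv.Perm F := Classical.choose (exists_hom isB_aff)
theorem ff_a (z : F) : ff ga z = z + 1 := by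
  rw [show ff ga = _ from (Classical.choose_spec (exists_hom isB_aff)).1]
  rfl
theorem ff_s (z : F) : ff gs z = xx * z := by
  rw [show ff gs = _ from (Classical.choose_spec (exists_hom isB_aff)).2.1]
  rfl
theorem ff_t (z : F) : ff gt z = yy * z := by
  rw [show ff gt = _ from (Classical.choose_spec (exists_hom isB_aff)).2.2]
  rfl

theorem ff_s_zpow (i : ℤ) (z : F) : ff (gs ^ i) z = xx ^ i * z := by
  induction i using Int.induction_on generalizing z with
  | zero => simp
  | succ i ih =>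
    rw [zpow_add_one, map_mul, Equiv.Perm.mul_apply, ih, ff_s, zpow_add_one₀ xx_ne, mul_assoc]
  | pred i ih =>
    rw [zpow_sub_one, map_mul, Equiv.Perm.mul_apply, ih, zpow_sub_one₀ xx_ne, mul_assoc]
    congr 1
    rw [map_inv, Equiv.Perm.inv_eq_iff_eq, ff_s, mul_inv_cancel_left₀ xx_ne]

theorem ff_t_zpow (i : ℤ) (z : F) : ff (gt ^ i) z = yy ^ i * z := by
  induction i using Int.induction_on generalizing z with
  | zero => simp
  | succ i ih =>
    rw [zpow_add_one, map_mul, Equiv.Perm.mul_apply, ih, ff_t, zpow_add_one₀ yy_ne, mul_assoc]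
  | pred i ih =>
    rw [zpow_sub_one, map_mul, Equiv.Perm.mul_apply, ih, zpow_sub_one₀ yy_ne, mul_assoc]
    congr 1
    rw [map_inv, Equiv.Perm.inv_eq_iff_eq, ff_t, mul_inv_cancel_left₀ yy_ne]

theorem ff_conj (i j : ℤ) (z : F) :
    ff (gs ^ i * gt ^ j * ga * (gs ^ i * gt ^ j)⁻¹) z = z + xx ^ i * yy ^ j := by
  have hc : (gs ^ i * gt ^ j)⁻¹ = gs ^ (-i) * gt ^ (-j) := by
    have h1 : Commute (gs ^ i) (gt ^ j) := (isB.h2.zpow_left i).zpow_right j
    rw [h1.eq, mul_inv_rev, zpow_neg, zpow_neg]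
  rw [hc]
  simp only [map_mul, Equiv.Perm.mul_apply, ff_s_zpow, ff_t_zpow, ff_a]
  have e1 : xx ^ i * xx ^ (-i) = 1 := by
    rw [← zpow_add₀ xx_ne, add_neg_cancel, zpow_zero]
  have e2 : yy ^ j * yy ^ (-j) = 1 := by
    rw [← zpow_add₀ yy_ne, add_neg_cancel, zpow_zero]
  linear_combination (yy ^ j * yy ^ (-j) * z) * e1 + z * e2

theorem ff_cj (i : ℤ) (z : F) : ff (cj ga gs i) z = z + xx ^ i := by
  have := ff_conj i 0 z
  rw [zpow_zero, mul_one, zpow_zero, mul_one] at this
  exact this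

/-- elements of `B` are products of distinct conjugates -/
theorem BB_form {x : R} (hx : x ∈ BB ga gs) :
    ∃ l : List ℤ, l.Nodup ∧ x = (l.map (cj ga gs)).prod := by
  have hgen : ∀ (i : ℤ) (l : List ℤ), l.Nodup → ∃ l' : List ℤ, l'.Nodup ∧
      cj ga gs i * (l.map (cj ga gs)).prod = (l'.map (cj ga gs)).prod := by
    intro i l hl
    by_cases hi : i ∈ l
    · refine ⟨l.erase i, hl.erase i, ?_⟩
      have hp : (l.map (cj ga gs)).Perm ((i :: l.erase i).map (cj ga gs)) :=
        (List.perm_cons_erase hi).map _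
      have hq := hp.prod_eq' (by
        rw [List.pairwise_map]
        exact List.pairwise_of_forall fun a b => cj_comm isB a b)
      rw [hq, List.map_cons, List.prod_cons, ← mul_assoc, cj_sq isB, one_mul]
    · exact ⟨i :: l, List.nodup_cons.mpr ⟨hi, hl⟩, by rw [List.map_cons, List.prod_cons]⟩
  have hlist : ∀ (k l : List ℤ), l.Nodup → ∃ l' : List ℤ, l'.Nodup ∧
      (k.map (cj ga gs)).prod * (l.map (cj ga gs)).prod = (l'.map (cj ga gs)).prod := by
    intro k
    induction k with
    | nil => intro l hl; exact ⟨l, hl, by simp⟩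
    | cons i k ih =>
      intro l hl
      obtain ⟨l', hl', h1⟩ := ih l hl
      obtain ⟨l'', hl'', h2⟩ := hgen i l' hl'
      exact ⟨l'', hl'', by rw [List.map_cons, List.prod_cons, mul_assoc, h1, h2]⟩
  induction hx using Subgroup.closure_induction with
  | mem x hx =>
    obtain ⟨i, rfl⟩ := hx
    exact ⟨[i], List.nodup_singleton i, by simp⟩
  | one => exact ⟨[], List.nodup_nil, by simp⟩
  | mul x y _ _ hx hy =>
    obtain ⟨k, hk, rfl⟩ := hx
    obtain ⟨l, hl, rfl⟩ := hy
    exact hlist k l hl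
  | inv x hx' hx =>
    obtain ⟨k, hk, h⟩ := hx
    refine ⟨k, hk, ?_⟩
    rw [← h]
    exact inv_eq_of_mul_eq_one_left (BB_sq isB hx')

theorem ff_list (l : List ℤ) (z : F) :
    ff ((l.map (cj ga gs)).prod) z = z + (l.map fun i => xx ^ i).sum := by
  induction l generalizing z with
  | nil => simp
  | cons i l ih =>
    rw [List.map_cons, List.prod_cons, map_mul, Equiv.Perm.mul_apply, ih, ff_cj, List.map_cons,
      List.sum_cons]
    ring

/-- the affine representation is faithful on `N` -/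
theorem ff_inj {x : R} (hx : x ∈ N) (h : ff x = 1) : x = 1 := by
  obtain ⟨m, hm⟩ := hx
  obtain ⟨l, hl, h1⟩ := BB_form hm
  have h2 : ff (gt ^ m * x * (gt ^ m)⁻¹) = 1 := by
    rw [map_mul, map_mul, h, mul_one, ← map_mul, mul_inv_cancel, map_one]
  have h3 : (l.map fun i => xx ^ i).sum = 0 := by
    have := ff_list l 0
    rw [← h1, h2, zero_add] at this
    exact this.symm
  have h4 := lin_indep l hl h3
  subst h4
  rw [List.map_nil, List.prod_nil] at h1
  have h5 : x = (gt ^ m)⁻¹ * (gt ^ m * x * (gt ^ m)⁻¹) * gt ^ m := by group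
  rw [h5, h1, mul_one, inv_mul_cancel]

theorem ga_ne : ga ≠ 1 := by
  intro h
  have := ff_a 0
  rw [h, map_one] at this
  simp at this

theorem isB_frob : IsB ga (gs ^ 2) (gt ^ 2) := by
  have c02 : Commute (cj ga gs 0) (cj ga gs 2) := cj_comm isB 0 2
  have e2 : gs ^ 2 * ga * (gs ^ 2)⁻¹ = cj ga gs 2 := rfl
  refine ⟨isB.h1, (isB.h2.pow_left 2).pow_right 2, ?_, ?_⟩
  · rw [e2]
    rw [cj_zero] at c02
    exact c02
  · rw [e2]
    have h1 : gt ^ 2 * ga * (gt ^ 2)⁻¹ = gt * (gt * cj ga gs 0 * gt⁻¹) * gt⁻¹ := by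
      rw [cj_zero, sq]
      group
    have h2 : gt * (cj ga gs 0 * cj ga gs 1) * gt⁻¹ =
        (gt * cj ga gs 0 * gt⁻¹) * (gt * cj ga gs 1 * gt⁻¹) := by group
    rw [h1, cj_conj_t isB, zero_add, h2, cj_conj_t isB, cj_conj_t isB, zero_add]
    have h3 : cj ga gs 0 * cj ga gs 1 * (cj ga gs 1 * cj ga gs (1 + 1)) =
        cj ga gs 0 * (cj ga gs 1 * cj ga gs 1) * cj ga gs (1 + 1) := by group
    rw [h3, cj_sq isB, mul_one, cj_zero]
    rfl

/-- the Frobenius endomorphism -/
noncomputable def fr : R →* R := Classical.choose (exists_hom isB_frob)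
theorem fr_a : fr ga = ga := (Classical.choose_spec (exists_hom isB_frob)).1
theorem fr_s : fr gs = gs ^ 2 := (Classical.choose_spec (exists_hom isB_frob)).2.1
theorem fr_t : fr gt = gt ^ 2 := (Classical.choose_spec (exists_hom isB_frob)).2.2

theorem l1_fr (g : R) : l1 (fr g) = l1 g ^ 2 := by
  have : l1.comp fr = (powMonoidHom 2).comp l1 := by
    apply hom_ext'
    · simp [fr_a, l1_a]
    · simp [fr_s]
    · simp [fr_t, l1_t]
  exact DFunLike.congr_fun this g

theorem l2_fr (g : R) : l2 (fr g) = l2 g ^ 2 := by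
  have : l2.comp fr = (powMonoidHom 2).comp l2 := by
    apply hom_ext'
    · simp [fr_a, l2_a]
    · simp [fr_s, l2_s]
    · simp [fr_t]
  exact DFunLike.congr_fun this g

theorem ff_fr (g : R) : ∀ z : F, ff (fr g) (z ^ 2) = (ff g z) ^ 2 := by
  have hg : g ∈ Subgroup.closure ({ga, gs, gt} : Set R) := by
    rw [closure_gens]
    trivial
  induction hg using Subgroup.closure_induction with
  | mem g hg =>
    intro z
    rcases hg with rfl | rfl | rfl
    · rw [fr_a, ff_a, ff_a, sq_add, one_pow]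
    · rw [fr_s, ff_s, sq gs, map_mul, Equiv.Perm.mul_apply, ff_s, ff_s]
      ring
    · rw [fr_t, ff_t, sq gt, map_mul, Equiv.Perm.mul_apply, ff_t, ff_t]
      ring
  | one => intro z; simp
  | mul g k _ _ hg hk =>
    intro z
    rw [map_mul, map_mul, map_mul, Equiv.Perm.mul_apply, Equiv.Perm.mul_apply, hk, hg]
  | inv g _ hg =>
    intro z
    rw [map_inv, map_inv, map_inv, Equiv.Perm.inv_eq_iff_eq, hg, ← Equiv.Perm.mul_apply,
      mul_inv_cancel, Equiv.Perm.one_apply]

/-- the Frobenius endomorphism is injective -/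
theorem fr_inj : Function.Injective fr := by
  rw [injective_iff_map_eq_one]
  intro g hg
  have h1 : l1 g = 1 := mul_tf _ 2 two_ne_zero (by rw [← l1_fr, hg, map_one])
  have h2 : l2 g = 1 := mul_tf _ 2 two_ne_zero (by rw [← l2_fr, hg, map_one])
  refine ff_inj ((mem_N_iff g).mpr ⟨h1, h2⟩) ?_
  ext z
  have h3 := ff_fr g z
  rw [hg, map_one, Equiv.Perm.one_apply] at h3
  rw [Equiv.Perm.one_apply]
  exact (sq_inj h3).symm

end Pool.Agent.Y43.CH
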