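import Mathlib

/-!
Syllable decompositions in amalgamated products (the basic part is taken from
Pool.Agent.TH103.VD.Syll), torsion elements, and conjugation into the factors.
-/

set_option autoImplicit false
set_option linter.unusedSectionVars false

namespace Pool.Agent.Y43.CH

open Monoid Function

section

variable {E : Type} [Group E] {G : Bool → Type} [∀ b, Group (G b)] {φ : ∀ b, E →* G b}

/-- product of a list of syllables -/
def pr (φ : ∀ b, E →* G b) (L : List (Σ b, G b)) : PushoutI φ :=
  (L.map fun s => PushoutI.of (φ := φ) s.1 s.2).prod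

theorem pr_nil : pr φ [] = 1 := rfl

theorem pr_cons (s : Σ b, G b) (L : List (Σ b, G b)) :
    pr φ (s :: L) = PushoutI.of s.1 s.2 * pr φ L := by
  simp [pr]

theorem pr_append (L L' : List (Σ b, G b)) : pr φ (L ++ L') = pr φ L * pr φ L' := by
  simp [pr]

theorem exists_pr (z : PushoutI φ) : ∃ L, pr φ L = z := by
  induction z using PushoutI.induction_on with
  | of i g => exact ⟨[⟨i, g⟩], by simp [pr]⟩
  | base h => exact ⟨[⟨true, φ true h⟩], by simp [pr, PushoutI.of_apply_eq_base]⟩
  | mul x y hx hy =>
    obtain ⟨L, rfl⟩ := hx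
    obtain ⟨L', rfl⟩ := hy
    exact ⟨L ++ L', pr_append L L'⟩

/-- reducedness of a list of syllables -/
def Red (φ : ∀ b, E →* G b) (L : List (Σ b, G b)) : Prop :=
  (∀ s ∈ L, s.2 ∉ (φ s.1).range) ∧ L.IsChain (fun s t => Sigma.fst s ≠ Sigma.fst t)

theorem Red.ne_one (hφ : ∀ b, Function.Injective (φ b)) {L : List (Σ b, G b)} (h : Red φ L)
    (hne : L ≠ []) : pr φ L ≠ 1 := by
  intro h1
  let w : CoprodI.Word G := ⟨L, fun s hs h2 => h.1 s hs (by rw [h2]; exact Subgroup.one_mem _), h.2⟩
  have hw : PushoutI.ofCoprodI (φ := φ) w.prod = pr φ L := by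
    change PushoutI.ofCoprodI (φ := φ) (L.map fun s => CoprodI.of s.2).prod = _
    rw [map_list_prod, List.map_map]
    congr 1
  have : w = CoprodI.Word.empty := PushoutI.Reduced.eq_empty_of_mem_range hφ (w := w) h.1 (by
    rw [hw, h1]
    exact Subgroup.one_mem _)
  exact hne (congrArg CoprodI.Word.toList this)

theorem not_chain {α : Type} {R : α → α → Prop} (L : List α) (h : ¬ L.IsChain R) :
    ∃ L1 a b L2, L = L1 ++ a :: b :: L2 ∧ ¬ R a b := by
  induction L with
  | nil => exact absurd List.IsChain.nil h
  | cons a L ih =>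
    cases L with
    | nil => exact absurd (List.IsChain.singleton a) h
    | cons b L =>
      by_cases hab : R a b
      · have : ¬ (b :: L).IsChain R := fun h' => h (List.IsChain.cons_cons hab h')
        obtain ⟨L1, c, d, L2, h1, h2⟩ := ih this
        exact ⟨a :: L1, c, d, L2, by rw [h1]; rfl, h2⟩
      · exact ⟨[], a, b, L, rfl, hab⟩

/-- absorbing an element of the base group -/
theorem absorb (e : E) (L : List (Σ b, G b)) (hL : L ≠ []) :
    ∃ L' : List (Σ b, G b), L'.length = L.length ∧ pr φ L' = PushoutI.base φ e * pr φ L := by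
  cases L with
  | nil => exact absurd rfl hL
  | cons s L =>
    refine ⟨⟨s.1, φ s.1 e * s.2⟩ :: L, rfl, ?_⟩
    rw [pr_cons, pr_cons]
    change PushoutI.of s.1 (φ s.1 e * s.2) * _ = _
    rw [map_mul, PushoutI.of_apply_eq_base, mul_assoc]

theorem absorb' (e : E) (L : List (Σ b, G b)) (hL : L ≠ []) :
    ∃ L' : List (Σ b, G b), L'.length = L.length ∧ pr φ L' = pr φ L * PushoutI.base φ e := by
  rcases List.eq_nil_or_concat L with h | ⟨M, s, rfl⟩
  · exact absurd h hL
  · refine ⟨M ++ [⟨s.1, s.2 * φ s.1 e⟩], by simp, ?_⟩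
    rw [List.concat_eq_append, pr_append, pr_append, pr_cons, pr_cons, pr_nil, mul_one, mul_one]
    change _ * PushoutI.of s.1 (s.2 * φ s.1 e) = _
    rw [map_mul, PushoutI.of_apply_eq_base, mul_assoc]

/-- a shortest decomposition into at least two syllables is reduced -/
theorem red_of_min (L : List (Σ b, G b)) (h2 : 2 ≤ L.length)
    (hmin : ∀ L', pr φ L' = pr φ L → L.length ≤ L'.length) : Red φ L := by
  constructor
  · intro s hs hr
    obtain ⟨e, he⟩ := hr
    obtain ⟨L1, L2, h⟩ := List.append_of_mem hs
    have hb : PushoutI.of s.1 s.2 = PushoutI.base φ e := by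
      rw [← he, PushoutI.of_apply_eq_base]
    by_cases hL2 : L2 = []
    · subst hL2
      have hL1 : L1 ≠ [] := by
        rintro rfl
        rw [h] at h2
        simp at h2
      obtain ⟨L', hl, hp⟩ := absorb' (φ := φ) e L1 hL1
      have := hmin L' (by rw [hp, h, pr_append, pr_cons, pr_nil, mul_one, hb])
      rw [h, hl] at this
      simp at this
    · obtain ⟨L', hl, hp⟩ := absorb (φ := φ) e L2 hL2
      have := hmin (L1 ++ L') (by rw [h, pr_append, pr_append, pr_cons, hp, hb])
      rw [h] at this
      simp only [List.length_append, List.length_cons, hl] at this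
      omega
  · by_contra hc
    obtain ⟨L1, a, b, L2, h1, h3⟩ := not_chain _ hc
    obtain ⟨i, a⟩ := a
    obtain ⟨j, b⟩ := b
    simp only [ne_eq, not_not] at h3
    subst h3
    have := hmin (L1 ++ ⟨i, a * b⟩ :: L2) (by
      rw [h1, pr_append, pr_append, pr_cons, pr_cons, pr_cons]
      change _ * (PushoutI.of i (a * b) * _) = _ * (PushoutI.of i a * (PushoutI.of i b * _))
      rw [map_mul, mul_assoc])
    rw [h1] at this
    simp only [List.length_append, List.length_cons] at this
    omega

/-- repetition of a list -/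
def rep (L : List (Σ b, G b)) : ℕ → List (Σ b, G b)
  | 0 => []
  | n + 1 => L ++ rep L n

theorem pr_rep (L : List (Σ b, G b)) (n : ℕ) : pr φ (rep L n) = pr φ L ^ n := by
  induction n with
  | zero => rw [pow_zero]; rfl
  | succ n ih => rw [rep, pr_append, ih, pow_succ']

theorem mem_rep {L : List (Σ b, G b)} {n : ℕ} {s : Σ b, G b} (h : s ∈ rep L n) : s ∈ L := by
  induction n with
  | zero => exact absurd h List.not_mem_nil
  | succ n ih =>
    rcases List.mem_append.mp h with h | h
    · exact h
    · exact ih h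

theorem exists_red_conj (z : PushoutI φ) :
    ∃ (c : PushoutI φ) (L : List (Σ b, G b)), pr φ L = c⁻¹ * z * c ∧
      (L.length ≤ 1 ∨ ∀ n, Red φ (rep L n)) := by
  classical
  have hex : ∃ n, ∃ (c : PushoutI φ) (L : List (Σ b, G b)), L.length = n ∧
      pr φ L = c⁻¹ * z * c := by
    obtain ⟨L, hL⟩ := exists_pr z
    exact ⟨L.length, 1, L, rfl, by simp [hL]⟩
  obtain ⟨c, L, hn, hL⟩ := Nat.find_spec hex
  have hmin : ∀ (c : PushoutI φ) (L' : List (Σ b, G b)), pr φ L' = c⁻¹ * z * c →
      L.length ≤ L'.length := by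
    intro c L' h
    rw [hn]
    exact Nat.find_min' hex ⟨c, L', rfl, h⟩
  refine ⟨c, L, hL, ?_⟩
  by_cases h2 : L.length ≤ 1
  · exact Or.inl h2
  right
  have hred : Red φ L := red_of_min L (by omega) (fun L' h => hmin c L' (by rw [h, hL]))
  -- first and last syllables
  have hcyc : ∀ u s, u ∈ L.getLast? → s ∈ L.head? → u.1 ≠ s.1 := by
    intro u s hu hs h
    obtain ⟨i, u⟩ := u
    obtain ⟨j, s⟩ := s
    simp only at h
    subst h
    cases L with
    | nil => simp at h2
    | cons s' M =>
      simp only [List.head?_cons, Option.mem_def, Option.some.injEq] at hs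
      subst hs
      have hM : M ≠ [] := by
        rintro rfl
        simp at h2
      have hlast : M.getLast? = some ⟨i, u⟩ := by
        rw [List.getLast?_cons_of_ne_nil hM] at hu
        exact hu
      obtain ⟨N, hN⟩ : ∃ N, M = N ++ [⟨i, u⟩] := by
        refine ⟨M.dropLast, ?_⟩
        have h5 := List.dropLast_append_getLast hM
        have h6 : M.getLast hM = ⟨i, u⟩ := by
          rw [List.getLast?_eq_some_getLast hM] at hlast
          exact Option.some.inj hlast
        rw [h6] at h5
        exact h5.symm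
      have := hmin (c * PushoutI.of i s) (N ++ [⟨i, u * s⟩]) (by
        have e1 : pr φ (⟨i, s⟩ :: M) = PushoutI.of i s * (pr φ N * PushoutI.of i u) := by
          rw [pr_cons, hN, pr_append, pr_cons, pr_nil, mul_one]
        rw [hL] at e1
        rw [pr_append, pr_cons, pr_nil, mul_one]
        change pr φ N * PushoutI.of i (u * s) = _
        rw [map_mul]
        have e2 : (c * PushoutI.of i s)⁻¹ * z * (c * PushoutI.of i s) =
            (PushoutI.of i s)⁻¹ * (c⁻¹ * z * c) * PushoutI.of i s := by group
        rw [e2, e1]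
        group)
      rw [hN] at this
      simp only [List.length_append, List.length_cons] at this
      omega
  intro n
  refine ⟨fun s hs => hred.1 s (mem_rep hs), ?_⟩
  induction n with
  | zero => exact List.IsChain.nil
  | succ n ih =>
    rw [rep, List.isChain_append]
    refine ⟨hred.2, ih, ?_⟩
    intro x hx y hy
    cases n with
    | zero => simp [rep] at hy
    | succ n =>
      refine hcyc x y hx ?_
      have hLne : L ≠ [] := by
        rintro rfl
        simp at h2
      rw [rep, List.head?_append_of_ne_nil _ hLne] at hy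
      exact hy


/-- a torsion element of an amalgam is conjugate to a torsion element of a factor -/
theorem amalg_torsion (hφ : ∀ b, Function.Injective (φ b)) (z : PushoutI φ) (n : ℕ)
    (hn : n ≠ 0) (hz : z ^ n = 1) : ∃ (c : PushoutI φ) (b : Bool) (x : G b),
      z = c * PushoutI.of b x * c⁻¹ ∧ x ^ n = 1 := by
  obtain ⟨c, L, hL, h⟩ := exists_red_conj z
  have hconj : z = c * pr φ L * c⁻¹ := by rw [hL]; group
  have hLn : pr φ L ^ n = 1 := by
    rw [hL]
    have : (c⁻¹ * z * c) ^ n = c⁻¹ * z ^ n * c := by
      have := conj_pow (a := c⁻¹) (b := z) (i := n)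
      rw [inv_inv] at this
      exact this
    rw [this, hz]
    group
  by_cases hle : L.length ≤ 1
  · match L, hle with
    | [], _ =>
      refine ⟨c, true, 1, ?_, one_pow _⟩
      rw [hconj, pr_nil, map_one]
    | [s], _ =>
      refine ⟨c, s.1, s.2, ?_, ?_⟩
      · rw [hconj, pr_cons, pr_nil, mul_one]
      · rw [pr_cons, pr_nil, mul_one, ← map_pow] at hLn
        apply PushoutI.of_injective hφ s.1
        rw [hLn, map_one]
  · exfalso
    have h := h.resolve_left hle
    obtain ⟨m, rfl⟩ := Nat.exists_eq_succ_of_ne_zero hn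
    refine (h (m + 1)).ne_one hφ ?_ ?_
    · rw [rep]
      intro h3
      have := (List.append_eq_nil_iff.mp h3).1
      rw [this] at hle
      simp at hle
    · rw [pr_rep]
      exact hLn

/-- the inverse list -/
def ivl (L : List (Σ b, G b)) : List (Σ b, G b) :=
  (L.map fun s => (⟨s.1, s.2⁻¹⟩ : Σ b, G b)).reverse

theorem ivl_cons (s : Σ b, G b) (L : List (Σ b, G b)) : ivl (s :: L) = ivl L ++ [⟨s.1, s.2⁻¹⟩] := by
  simp [ivl]

theorem pr_ivl (L : List (Σ b, G b)) : pr φ (ivl L) = (pr φ L)⁻¹ := by
  induction L with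
  | nil => simp [ivl, pr]
  | cons s L ih =>
    rw [ivl_cons, pr_append, ih, pr_cons, pr_cons, pr_nil, mul_one, map_inv, mul_inv_rev]

theorem ivl_length (L : List (Σ b, G b)) : (ivl L).length = L.length := by
  simp [ivl]

theorem Red.ivl {L : List (Σ b, G b)} (h : Red φ L) : Red φ (ivl L) := by
  constructor
  · intro s hs
    simp only [CH.ivl, List.mem_reverse, List.mem_map] at hs
    obtain ⟨t, ht, rfl⟩ := hs
    intro h2
    exact h.1 t ht (by simpa using inv_mem h2)
  · rw [CH.ivl, List.isChain_reverse, List.isChain_map]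
    refine h.2.imp ?_
    intro a b hab
    exact fun h => hab h.symm

theorem Red.append {L M : List (Σ b, G b)} (hL : Red φ L) (hM : Red φ M)
    (h : ∀ x ∈ L.getLast?, ∀ y ∈ M.head?, x.1 ≠ y.1) : Red φ (L ++ M) := by
  refine ⟨?_, ?_⟩
  · intro s hs
    rcases List.mem_append.mp hs with hs | hs
    · exact hL.1 s hs
    · exact hM.1 s hs
  · rw [List.isChain_append]
    exact ⟨hL.2, hM.2, h⟩

theorem Red.single {i : Bool} {x : G i} (hx : x ∉ (φ i).range) : Red φ [⟨i, x⟩] :=
  ⟨by
    intro s hs
    simp only [List.mem_singleton] at hs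
    subst hs
    exact hx, List.IsChain.singleton _⟩

theorem Red.cons {i : Bool} {x : G i} {L : List (Σ b, G b)} (hx : x ∉ (φ i).range)
    (hL : Red φ L) (h : ∀ y ∈ L.head?, y.1 ≠ i) : Red φ (⟨i, x⟩ :: L) :=
  (Red.single hx).append hL (by
    intro s hs y hy
    simp only [List.getLast?_singleton, Option.mem_def, Option.some.injEq] at hs
    subst hs
    exact fun h2 => h y hy h2.symm)

theorem Red.tail {s : Σ b, G b} {L : List (Σ b, G b)} (h : Red φ (s :: L)) : Red φ L :=
  ⟨fun t ht => h.1 t (List.mem_cons_of_mem _ ht), h.2.tail⟩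

theorem Red.head_ne {s : Σ b, G b} {L : List (Σ b, G b)} (h : Red φ (s :: L)) :
    ∀ y ∈ L.head?, y.1 ≠ s.1 := by
  intro y hy
  cases L with
  | nil => simp at hy
  | cons t L =>
    simp only [List.head?_cons, Option.mem_def, Option.some.injEq] at hy
    subst hy
    have := h.2
    rw [List.isChain_cons_cons] at this
    exact fun h => this.1 h.symm

theorem ivl_getLast (L : List (Σ b, G b)) {i : Bool} (h : ∀ y ∈ L.head?, y.1 ≠ i) :
    ∀ y ∈ (CH.ivl L).getLast?, y.1 ≠ i := by
  intro y hy
  cases L with
  | nil => simp [CH.ivl] at hy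
  | cons s L =>
    rw [ivl_cons, List.getLast?_append] at hy
    simp only [List.getLast?_singleton, Option.some_or, Option.mem_def, Option.some.injEq] at hy
    subst hy
    exact h s rfl

/-- a reduced list with a letter in the middle of a conjugate -/
theorem Red.sandwich {L : List (Σ b, G b)} (hL : Red φ L) {i : Bool}
    (h : ∀ y ∈ L.head?, y.1 ≠ i) {x : G i} (hx : x ∉ (φ i).range) :
    Red φ (CH.ivl L ++ ⟨i, x⟩ :: L) := by
  refine hL.ivl.append (Red.cons hx hL h) ?_
  intro a ha y hy
  simp only [List.head?_cons, Option.mem_def, Option.some.injEq] at hy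
  subst hy
  exact ivl_getLast L h a ha

theorem pr_sandwich (L : List (Σ b, G b)) (i : Bool) (x : G i) :
    pr φ (CH.ivl L ++ ⟨i, x⟩ :: L) = (pr φ L)⁻¹ * PushoutI.of i x * pr φ L := by
  rw [pr_append, pr_ivl, pr_cons, mul_assoc]

theorem Red.ne_base (hφ : ∀ b, Function.Injective (φ b)) {L : List (Σ b, G b)} (h : Red φ L)
    (hne : L ≠ []) (e : E) : pr φ L ≠ PushoutI.base φ e := by
  intro h1
  let w : CoprodI.Word G := ⟨L, fun s hs h2 => h.1 s hs (by rw [h2]; exact Subgroup.one_mem _), h.2⟩
  have hw : PushoutI.ofCoprodI (φ := φ) w.prod = pr φ L := by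
    change PushoutI.ofCoprodI (φ := φ) (L.map fun s => CoprodI.of s.2).prod = _
    rw [map_list_prod, List.map_map]
    congr 1
  have : w = CoprodI.Word.empty := PushoutI.Reduced.eq_empty_of_mem_range hφ (w := w) h.1 (by
    rw [hw, h1]
    exact ⟨e, rfl⟩)
  exact hne (congrArg CoprodI.Word.toList this)

theorem of_range_eq_base {b : Bool} {x : G b} (hx : x ∈ (φ b).range) :
    ∃ e, (PushoutI.of b x : PushoutI φ) = PushoutI.base φ e := by
  obtain ⟨e, rfl⟩ := hx
  exact ⟨e, PushoutI.of_apply_eq_base φ b e⟩

/-- a reduced word lying in a factor is a single letter of that factor -/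
theorem Red.eq_of (hφ : ∀ b, Function.Injective (φ b)) {L : List (Σ b, G b)} (h : Red φ L)
    (hne : L ≠ []) {b : Bool} {x : G b} (hx : pr φ L = PushoutI.of b x) :
    L.length = 1 ∧ ∀ y ∈ L.head?, y.1 = b := by
  have key : ∀ (M : List (Σ b, G b)) (y : G b), Red φ M → M ≠ [] → (∀ z ∈ M.head?, z.1 ≠ b) →
      pr φ M = PushoutI.of b y → False := by
    intro M y hM hMne hh hy
    by_cases hyr : y ∈ (φ b).range
    · obtain ⟨e, he⟩ := of_range_eq_base (φ := φ) hyr
      exact hM.ne_base hφ hMne e (hy.trans he)
    · have hyr' : y⁻¹ ∉ (φ b).range := fun h => hyr (by simpa using inv_mem h)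
      refine (Red.cons hyr' hM hh).ne_one hφ (List.cons_ne_nil _ _) ?_
      rw [pr_cons, hy]
      change PushoutI.of b y⁻¹ * PushoutI.of b y = 1
      rw [map_inv, inv_mul_cancel]
  cases L with
  | nil => exact absurd rfl hne
  | cons s M =>
    by_cases hs : s.1 = b
    · obtain ⟨j, s⟩ := s
      simp only at hs
      subst hs
      refine ⟨?_, ?_⟩
      · by_contra hlen
        have hMne : M ≠ [] := by
          rintro rfl
          simp at hlen
        refine key M (s⁻¹ * x) h.tail hMne h.head_ne ?_
        rw [map_mul, ← hx, pr_cons, map_inv]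
        change _ = (PushoutI.of j s)⁻¹ * (PushoutI.of j s * pr φ M)
        rw [inv_mul_cancel_left]
      · intro y hy
        simp only [List.head?_cons, Option.mem_def, Option.some.injEq] at hy
        subst hy
        rfl
    · exfalso
      refine key (s :: M) x h hne ?_ hx
      intro z hz
      simp only [List.head?_cons, Option.mem_def, Option.some.injEq] at hz
      subst hz
      exact hs

/-- representatives of the nontrivial cosets of a factor -/
theorem exists_coset_rep (i : Bool) (g : PushoutI φ)
    (hg : g ∉ (PushoutI.of (φ := φ) i).range) :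
    ∃ (u : G i) (L : List (Σ b, G b)), g = PushoutI.of i u * pr φ L ∧ Red φ L ∧ L ≠ [] ∧
      ∀ y ∈ L.head?, y.1 ≠ i := by
  classical
  have hex : ∃ n, ∃ (u : G i) (L : List (Σ b, G b)), L.length = n ∧
      g = PushoutI.of i u * pr φ L := by
    obtain ⟨L, hL⟩ := exists_pr g
    exact ⟨L.length, 1, L, rfl, by rw [map_one, one_mul, hL]⟩
  obtain ⟨u, L, hn, hL⟩ := Nat.find_spec hex
  have hmin : ∀ (u : G i) (L' : List (Σ b, G b)), g = PushoutI.of i u * pr φ L' →
      L.length ≤ L'.length := by
    intro u L' h
    rw [hn]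
    exact Nat.find_min' hex ⟨u, L', rfl, h⟩
  have hne : L ≠ [] := by
    rintro rfl
    exact hg ⟨u, by rw [hL, pr_nil, mul_one]⟩
  have hhead : ∀ y ∈ L.head?, y.1 ≠ i := by
    intro y hy h
    obtain ⟨j, y⟩ := y
    simp only at h
    subst h
    cases L with
    | nil => exact absurd rfl hne
    | cons s M =>
      simp only [List.head?_cons, Option.mem_def, Option.some.injEq] at hy
      subst hy
      have := hmin (u * y) M (by
        rw [hL, pr_cons]
        change _ * (PushoutI.of j y * _) = _
        rw [map_mul, mul_assoc])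
      simp at this
  refine ⟨u, L, hL, ?_, hne, hhead⟩
  by_cases h2 : 2 ≤ L.length
  · exact red_of_min L h2 fun L' h => hmin u L' (by rw [h, ← hL])
  · match L, hne, h2 with
    | [s], _, _ =>
      obtain ⟨j, s⟩ := s
      refine Red.single ?_
      intro hs
      obtain ⟨e, he⟩ := of_range_eq_base (φ := φ) hs
      apply hg
      refine ⟨u * φ i e, ?_⟩
      rw [hL, pr_cons, pr_nil, mul_one, map_mul, PushoutI.of_apply_eq_base]
      change _ = _ * PushoutI.of j s
      rw [he]
    | s :: t :: M, _, h2 => simp at h2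

/-- an element of a factor not conjugate into the base is conjugated into the factors only
by elements of its factor -/
theorem conj_factor (hφ : ∀ b, Function.Injective (φ b)) {i : Bool} {x : G i}
    (hx : ∀ u : G i, u⁻¹ * x * u ∉ (φ i).range) {g : PushoutI φ} {b : Bool}
    (hg : g⁻¹ * PushoutI.of i x * g ∈ (PushoutI.of (φ := φ) b).range) :
    g ∈ (PushoutI.of (φ := φ) i).range := by
  by_contra hgi
  obtain ⟨u, L, hL, hred, hne, hhead⟩ := exists_coset_rep i g hgi
  obtain ⟨w, hw⟩ := hg
  have h1 : pr φ (CH.ivl L ++ ⟨i, u⁻¹ * x * u⟩ :: L) = PushoutI.of b w := by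
    rw [pr_sandwich, hw, hL, map_mul, map_mul, map_inv]
    group
  have h2 := (hred.sandwich hhead (hx u)).eq_of hφ (by simp) h1
  have h3 := h2.1
  have h4 := List.length_pos_iff.mpr hne
  simp only [List.length_append, ivl_length, List.length_cons] at h3
  omega

/-- malnormality of one factor, when the base is malnormal in the other one -/
theorem malnormal_factor (hφ : ∀ b, Function.Injective (φ b))
    (hmal : ∀ k : G true, k ∉ (φ true).range → ∀ e : E, e ≠ 1 →
      k⁻¹ * φ true e * k ∉ (φ true).range) {x : G false} (hx : x ≠ 1) {g : PushoutI φ}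
    (hg : g⁻¹ * PushoutI.of false x * g ∈ (PushoutI.of (φ := φ) false).range) :
    g ∈ (PushoutI.of (φ := φ) false).range := by
  by_contra hgi
  obtain ⟨u, L, hL, hred, hne, hhead⟩ := exists_coset_rep false g hgi
  obtain ⟨w, hw⟩ := hg
  by_cases hxu : u⁻¹ * x * u ∈ (φ false).range
  · obtain ⟨e, he⟩ := hxu
    have he1 : e ≠ 1 := by
      rintro rfl
      rw [map_one] at he
      apply hx
      have := congrArg (fun z => u * z * u⁻¹) he
      simp only [mul_one, mul_inv_cancel] at this
      rw [this]
      group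
    match L, hne, hhead, hred, hL with
    | ⟨false, k⟩ :: M, _, hhead, _, _ => exact hhead _ rfl rfl
    | ⟨true, k⟩ :: M, _, hhead, hred, hL =>
      have hk : k ∉ (φ true).range := hred.1 ⟨true, k⟩ (List.mem_cons_self)
      have hk' := hmal k hk e he1
      have h1 : pr φ (CH.ivl M ++ ⟨true, k⁻¹ * φ true e * k⟩ :: M) = PushoutI.of false w := by
        have h0 : (PushoutI.of true (φ true e) : PushoutI φ) =
            PushoutI.of false (u⁻¹ * x * u) := by
          rw [← he, PushoutI.of_apply_eq_base, PushoutI.of_apply_eq_base]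
        rw [pr_sandwich, hw, hL, map_mul, map_mul, map_inv, h0, pr_cons, map_mul, map_mul, map_inv]
        change _ = (PushoutI.of false u * (PushoutI.of true k * pr φ M))⁻¹ * _ *
          (PushoutI.of false u * (PushoutI.of true k * pr φ M))
        group
      have h2 := (hred.tail.sandwich hred.head_ne hk').eq_of hφ (by simp) h1
      have h3 := h2.1
      simp only [List.length_append, ivl_length, List.length_cons] at h3
      have h4 : M = [] := List.length_eq_zero_iff.mp (by omega)
      subst h4
      have h5 := h2.2 ⟨true, k⁻¹ * φ true e * k⟩ (by simp [CH.ivl])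
      simp at h5
  · have h1 : pr φ (CH.ivl L ++ ⟨false, u⁻¹ * x * u⟩ :: L) = PushoutI.of false w := by
      rw [pr_sandwich, hw, hL, map_mul, map_mul, map_inv]
      group
    have h2 := (hred.sandwich hhead hxu).eq_of hφ (by simp) h1
    have h3 := h2.1
    have h4 := List.length_pos_iff.mpr hne
    simp only [List.length_append, ivl_length, List.length_cons] at h3
    omega

end

end Pool.Agent.Y43.CH
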