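import Mathlib
import Pool.Agent.Y43.CH.Syll
import Pool.Agent.Y43.CH.Bau2

/-!
The amalgamated product W of Baumslag's group R (characteristic two) and the dihedral group of
order ten along a subgroup of order two.
-/

set_option autoImplicit false

namespace Pool.Agent.Y43.CH

open Monoid

/-- the dihedral group of order ten -/
abbrev K : Type := DihedralGroup 5

/-- the reflection -/
def kr : K := DihedralGroup.sr 0

/-- the two factors -/
def GG : Bool → Type
  | false => R
  | true => K

instance instGG : ∀ b, Group (GG b)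
  | false => inferInstanceAs (Group R)
  | true => inferInstanceAs (Group K)

/-- the homomorphism from the group of order two given by an involution -/
def invol {P : Type} [Group P] (g : P) (h : g * g = 1) : ℤˣ →* P where
  toFun u := if u = 1 then 1 else g
  map_one' := if_pos rfl
  map_mul' u v := by
    rcases Int.units_eq_one_or u with rfl | rfl <;> rcases Int.units_eq_one_or v with rfl | rfl <;>
      simp [h]

theorem invol_neg {P : Type} [Group P] (g : P) (h : g * g = 1) : invol g h (-1) = g := by
  simp [invol]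

theorem invol_range {P : Type} [Group P] (g : P) (h : g * g = 1) (x : P) :
    x ∈ (invol g h).range ↔ x = 1 ∨ x = g := by
  constructor
  · rintro ⟨u, rfl⟩
    rcases Int.units_eq_one_or u with rfl | rfl
    · exact Or.inl (map_one _)
    · exact Or.inr (invol_neg g h)
  · rintro (rfl | rfl)
    · exact one_mem _
    · exact ⟨-1, invol_neg _ h⟩

theorem invol_inj {P : Type} [Group P] (g : P) (h : g * g = 1) (hg : g ≠ 1) :
    Function.Injective (invol g h) := by
  rw [injective_iff_map_eq_one]
  intro u hu
  rcases Int.units_eq_one_or u with rfl | rfl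
  · rfl
  · rw [invol_neg] at hu
    exact absurd hu hg

theorem kr_sq : kr * kr = 1 := by decide

theorem kr_ne : kr ≠ 1 := by decide

/-- the two embeddings of the group of order two -/
def ph : ∀ b, ℤˣ →* GG b
  | false => invol ga isB.h1
  | true => invol kr kr_sq

theorem ph_inj : ∀ b, Function.Injective (ph b)
  | false => invol_inj ga isB.h1 ga_ne
  | true => invol_inj kr kr_sq kr_ne

/-- the amalgamated product -/
abbrev W : Type := PushoutI ph

/-- the first factor -/
def iR : R →* W := PushoutI.of (φ := ph) false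

/-- the second factor -/
def iK : K →* W := PushoutI.of (φ := ph) true

theorem iR_inj : Function.Injective iR := PushoutI.of_injective ph_inj false

theorem iK_inj : Function.Injective iK := PushoutI.of_injective ph_inj true

theorem iR_ga : iR ga = iK kr := by
  have h1 : iR (ph false (-1)) = PushoutI.base ph (-1) := PushoutI.of_apply_eq_base ph false (-1)
  have h2 : iK (ph true (-1)) = PushoutI.base ph (-1) := PushoutI.of_apply_eq_base ph true (-1)
  have h3 : ph false (-1) = ga := invol_neg ga isB.h1
  have h4 : ph true (-1) = kr := invol_neg kr kr_sq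
  rw [h3] at h1
  rw [h4] at h2
  rw [h1, h2]

theorem exists_lift {P : Type} [Group P] (f : R →* P) (g : K →* P) (h : f ga = g kr) :
    ∃ T : W →* P, (∀ r, T (iR r) = f r) ∧ ∀ k, T (iK k) = g k := by
  let f' : ∀ b, GG b →* P := fun b => match b with
    | false => f
    | true => g
  have hf : ∀ b, (f' b).comp (ph b) = f.comp (invol ga isB.h1) := by
    intro b
    cases b with
    | false => rfl
    | true =>
      ext u
      rcases Int.units_eq_one_or u with rfl | rfl
      · rw [map_one, map_one]
      · change g (invol kr kr_sq (-1)) = f (invol ga isB.h1 (-1))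
        rw [invol_neg, invol_neg, h]
  refine ⟨PushoutI.lift f' _ hf, fun r => ?_, fun k => ?_⟩
  · exact PushoutI.lift_of (φ := ph) f' _ hf (i := false) r
  · exact PushoutI.lift_of (φ := ph) f' _ hf (i := true) k

theorem W_induction {motive : W → Prop} (h1 : ∀ r, motive (iR r)) (h2 : ∀ k, motive (iK k))
    (h3 : ∀ x y, motive x → motive y → motive (x * y)) (x : W) : motive x := by
  induction x using PushoutI.induction_on with
  | of i g =>
    cases i with
    | false => exact h1 g
    | true => exact h2 g
  | base h =>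
    rw [← PushoutI.of_apply_eq_base ph false h]
    exact h1 _
  | mul x y hx hy => exact h3 x y hx hy

theorem W_torsion (z : W) (n : ℕ) (hn : n ≠ 0) (hz : z ^ n = 1) :
    (∃ (g : W) (x : R), z = g * iR x * g⁻¹ ∧ x ^ n = 1) ∨
      ∃ (g : W) (k : K), z = g * iK k * g⁻¹ ∧ k ^ n = 1 := by
  obtain ⟨g, b, x, h1, h2⟩ := amalg_torsion ph_inj z n hn hz
  cases b with
  | false => exact Or.inl ⟨g, x, h1, h2⟩
  | true => exact Or.inr ⟨g, x, h1, h2⟩

theorem K_malnormal : ∀ k : K, ¬ (k = 1 ∨ k = kr) → ¬ (k⁻¹ * kr * k = 1 ∨ k⁻¹ * kr * k = kr) := by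
  decide

theorem R_malnormal {x : R} (hx : x ≠ 1) {g : W} (hg : g⁻¹ * iR x * g ∈ iR.range) :
    g ∈ iR.range := by
  refine malnormal_factor ph_inj ?_ hx hg
  intro k hk e he
  rcases Int.units_eq_one_or e with rfl | rfl
  · exact absurd rfl he
  · have h1 := K_malnormal k (fun h => hk ((invol_range kr kr_sq k).mpr h))
    intro h2
    apply h1
    have h3 := (invol_range kr kr_sq _).mp h2
    have h4 : ph true (-1) = kr := invol_neg kr kr_sq
    rw [h4] at h3
    exact h3

theorem K_five : ∀ k : K, k ^ 5 = 1 → k ≠ 1 → ∀ u : K, ¬ (u⁻¹ * k * u = 1 ∨ u⁻¹ * k * u = kr) := by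
  decide

theorem K_conj {k : K} (h5 : k ^ 5 = 1) (hk : k ≠ 1) {g : W} (hg : g⁻¹ * iK k * g ∈ iK.range) :
    g ∈ iK.range := by
  refine conj_factor (b := true) ph_inj (i := true) (x := k) ?_ hg
  intro u h
  exact K_five k h5 hk u ((invol_range kr kr_sq _).mp h)

theorem K_invol : ∀ k : K, k * k = 1 → k ≠ 1 → ∃ u : K, k = u * kr * u⁻¹ := by
  decide

theorem K_gen : ∀ k : K, k ^ 5 = 1 → k ≠ 1 → ∀ x : K, ∃ n : Fin 5, ∃ m : Fin 2,
    x = k ^ (n : ℕ) * kr ^ (m : ℕ) := by
  decide

theorem K_rel : kr * DihedralGroup.r 1 * kr⁻¹ = (DihedralGroup.r 1)⁻¹ := by decide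

theorem K_r5 : (DihedralGroup.r 1 : K) ^ 5 = 1 := by decide

theorem K_r1 : (DihedralGroup.r 1 : K) ≠ 1 := by decide

theorem K_three : ∀ k : K, k ^ 3 = 1 → k = 1 := by decide

/-- no elements of order three -/
theorem W_three (z : W) (hz : z ^ 3 = 1) : z = 1 := by
  rcases W_torsion z 3 (by norm_num) hz with ⟨g, x, h1, h2⟩ | ⟨g, k, h1, h2⟩
  · have := odd_torsion x 1 h2
    rw [h1, this, map_one]
    group
  · have := K_three k h2
    rw [h1, this, map_one]
    group

/-- a map of syllables -/
theorem map_injective {E : Type} [Group E] {G : Bool → Type} [∀ b, Group (G b)]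
    {φ : ∀ b, E →* G b} (hφ : ∀ b, Function.Injective (φ b)) (ψ : ∀ b, G b →* G b)
    (h1 : ∀ b, Function.Injective (ψ b)) (h2 : ∀ b x, ψ b x ∈ (φ b).range → x ∈ (φ b).range)
    (T : PushoutI φ →* PushoutI φ) (hT : ∀ b x, T (PushoutI.of b x) = PushoutI.of b (ψ b x)) :
    Function.Injective T := by
  classical
  rw [injective_iff_map_eq_one]
  intro z hz
  by_contra hz1
  have hex : ∃ n, ∃ (L : List (Σ b, G b)), L.length = n ∧ pr φ L = z := by
    obtain ⟨L, hL⟩ := exists_pr z
    exact ⟨L.length, L, rfl, hL⟩
  obtain ⟨L, hn, hL⟩ := Nat.find_spec hex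
  have hmin : ∀ (L' : List (Σ b, G b)), pr φ L' = pr φ L → L.length ≤ L'.length := by
    intro L' h
    rw [hn]
    exact Nat.find_min' hex ⟨L', rfl, by rw [h, hL]⟩
  have hTL : ∀ L : List (Σ b, G b), T (pr φ L) = pr φ (L.map fun s => ⟨s.1, ψ s.1 s.2⟩) := by
    intro L
    induction L with
    | nil => rw [pr_nil, map_one]; rfl
    | cons s L ih =>
      rw [pr_cons, map_mul, ih, hT, List.map_cons, pr_cons]
  rw [← hL, hTL] at hz
  by_cases hlen : 2 ≤ L.length
  · have hred := red_of_min L hlen hmin
    refine Red.ne_one hφ (L := L.map fun s => ⟨s.1, ψ s.1 s.2⟩) ⟨?_, ?_⟩ ?_ hz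
    · intro s hs
      obtain ⟨s', hs', rfl⟩ := List.mem_map.mp hs
      exact fun h => hred.1 s' hs' (h2 _ _ h)
    · rw [List.isChain_map]
      exact hred.2
    · intro h
      rw [List.map_eq_nil_iff] at h
      rw [h] at hlen
      simp at hlen
  · rcases L with _ | ⟨s, _ | ⟨t, L⟩⟩
    · exact hz1 (by rw [← hL, pr_nil])
    · rw [List.map_cons, pr_cons, List.map_nil, pr_nil, mul_one] at hz
      have h3 : ψ s.1 s.2 = 1 := by
        apply PushoutI.of_injective hφ s.1
        rw [map_one]
        exact hz
      have h4 : s.2 = 1 := h1 s.1 (by rw [h3, map_one])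
      apply hz1
      rw [← hL, pr_cons, pr_nil, mul_one, h4, map_one]
    · simp only [List.length_cons] at hlen
      omega

/-- the Frobenius endomorphism of `W` -/
theorem exists_FW : ∃ T : W →* W, (∀ r, T (iR r) = iR (fr r)) ∧ (∀ k, T (iK k) = iK k) ∧
    Function.Injective T := by
  obtain ⟨T, hT1, hT2⟩ := exists_lift (iR.comp fr) iK (by
    rw [MonoidHom.comp_apply, fr_a]
    exact iR_ga)
  refine ⟨T, hT1, hT2, ?_⟩
  let ψ : ∀ b, GG b →* GG b := fun b => match b with
    | false => fr
    | true => MonoidHom.id K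
  refine map_injective ph_inj ψ ?_ ?_ T ?_
  · intro b
    cases b with
    | false => exact fr_inj
    | true => exact fun x y h => h
  · intro b x hx
    cases b with
    | false =>
      have h1 := (invol_range ga isB.h1 (fr x)).mp hx
      refine (invol_range ga isB.h1 x).mpr ?_
      rcases h1 with h1 | h1
      · left
        exact fr_inj (by rw [h1, map_one])
      · right
        exact fr_inj (by rw [h1, fr_a])
    | true => exact hx
  · intro b x
    cases b with
    | false => exact hT1 x
    | true => exact hT2 x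

/-- exponent sum of `s` on `W` -/
theorem exists_L1 : ∃ T : W →* Multiplicative ℤ, (∀ r, T (iR r) = l1 r) ∧ ∀ k, T (iK k) = 1 :=
  exists_lift l1 1 (by rw [l1_a]; rfl)

/-- exponent sum of `s` on `W` -/
noncomputable def L1 : W →* Multiplicative ℤ := Classical.choose exists_L1
theorem L1_R (r : R) : L1 (iR r) = l1 r := (Classical.choose_spec exists_L1).1 r
theorem L1_K (k : K) : L1 (iK k) = 1 := (Classical.choose_spec exists_L1).2 k

open Monoid.Coprod in
/-- `W` is finitely presented -/
theorem W_fp : Group.IsFinitelyPresented W := by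
  let Rl : Set (Monoid.Coprod R K) := {inl ga * (inr kr)⁻¹}
  let M := Subgroup.normalClosure Rl
  let f : Monoid.Coprod R K →* W := Monoid.Coprod.lift iR iK
  have hp : QuotientGroup.mk' M (inl ga) = QuotientGroup.mk' M (inr kr) := by
    have : QuotientGroup.mk' M (inl ga * (inr kr)⁻¹) = 1 :=
      (QuotientGroup.eq_one_iff _).mpr (Subgroup.subset_normalClosure rfl)
    rwa [map_mul, map_inv, mul_inv_eq_one] at this
  obtain ⟨back, hb1, hb2⟩ := exists_lift ((QuotientGroup.mk' M).comp inl)
    ((QuotientGroup.mk' M).comp inr) hp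
  have hback : back.comp f = QuotientGroup.mk' M := by
    apply Monoid.Coprod.hom_ext
    · refine MonoidHom.ext fun g => ?_
      change back (f (inl g)) = _
      have : f (inl g) = iR g := Monoid.Coprod.lift_apply_inl _ _ _
      rw [this, hb1]
    · refine MonoidHom.ext fun g => ?_
      change back (f (inr g)) = _
      have : f (inr g) = iK g := Monoid.Coprod.lift_apply_inr _ _ _
      rw [this, hb2]
  have hsurj : Function.Surjective f := by
    intro x
    induction x using W_induction with
    | h1 r => exact ⟨inl r, Monoid.Coprod.lift_apply_inl _ _ _⟩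
    | h2 k => exact ⟨inr k, Monoid.Coprod.lift_apply_inr _ _ _⟩
    | h3 x y hx hy =>
      obtain ⟨x', rfl⟩ := hx
      obtain ⟨y', rfl⟩ := hy
      exact ⟨x' * y', map_mul _ _ _⟩
  refine Group.IsFinitelyPresented.of_surjective f hsurj ⟨Rl, Set.finite_singleton _, ?_⟩
  apply le_antisymm
  · apply Subgroup.normalClosure_le_normal
    rintro x rfl
    change f _ = 1
    rw [map_mul, map_inv, mul_inv_eq_one]
    have e1 : f (inl ga) = _ := Monoid.Coprod.lift_apply_inl _ _ _
    have e2 : f (inr kr) = _ := Monoid.Coprod.lift_apply_inr _ _ _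
    rw [e1, e2]
    exact iR_ga
  · intro x hx
    have h1 : back (f x) = 1 := by rw [MonoidHom.mem_ker.mp hx, map_one]
    rw [← MonoidHom.comp_apply, hback] at h1
    exact (QuotientGroup.eq_one_iff x).mp h1

end Pool.Agent.Y43.CH
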