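import Mathlib
import Pool.Agent.Y43.CH.Amal

/-!
Injective endomorphisms of W preserving the parity of the exponent sum of s are surjective.
-/

set_option autoImplicit false

namespace Pool.Agent.Y43.CH

open Monoid

/-- parity -/
def par : Multiplicative ℤ →* ℤˣ := zpowersHom ℤˣ (-1)

theorem par_apply (n : ℤ) : par (Multiplicative.ofAdd n) = (-1) ^ n := rfl

theorem par_odd {n : ℤ} (h : par (Multiplicative.ofAdd n) = -1) : Odd n := by
  by_contra h1
  rw [Int.not_odd_iff_even] at h1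
  rw [par_apply, h1.neg_one_zpow] at h
  exact absurd h (by decide)

theorem par_even {n : ℤ} (h : par (Multiplicative.ofAdd n) = 1) : Even n := by
  by_contra h1
  rw [Int.not_even_iff_odd] at h1
  rw [par_apply, h1.neg_one_zpow] at h
  exact absurd h (by decide)

/-- the parity character of `W` -/
noncomputable def chi : W →* ℤˣ := par.comp L1

theorem chi_R (r : R) : chi (iR r) = par (l1 r) := by
  rw [chi, MonoidHom.comp_apply, L1_R]

theorem conj_nf {n : R} (hn : n ∈ N) (i j : ℤ) :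
    n * gs ^ i * gt ^ j * ga * (n * gs ^ i * gt ^ j)⁻¹ =
      gs ^ i * gt ^ j * ga * (gs ^ i * gt ^ j)⁻¹ := by
  have h1 : gs ^ i * gt ^ j * ga * (gs ^ i * gt ^ j)⁻¹ ∈ N := N_conj_closure _ _ ga_mem
  have h2 := (N_comm hn h1).eq
  have h3 : n * gs ^ i * gt ^ j * ga * (n * gs ^ i * gt ^ j)⁻¹ =
      n * (gs ^ i * gt ^ j * ga * (gs ^ i * gt ^ j)⁻¹) * n⁻¹ := by
    simp only [mul_inv_rev, mul_assoc]
  rw [h3, h2, mul_inv_cancel_right]

theorem nf_of (g : R) (p q : ℤ) (h1 : l1 g = Multiplicative.ofAdd p)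
    (h2 : l2 g = Multiplicative.ofAdd q) : ∃ n ∈ N, g = n * gs ^ p * gt ^ q := by
  obtain ⟨n, hn, i, j, rfl⟩ := exists_nf g
  rw [l1_nf hn] at h1
  rw [l2_nf hn] at h2
  have hi : i = p := Multiplicative.ofAdd.injective h1
  have hj : j = q := Multiplicative.ofAdd.injective h2
  subst hi hj
  exact ⟨n, hn, rfl⟩

theorem gs_N : gs ∈ (⊤ : Subgroup R) := trivial

/-- an endomorphism of `R` fixing `a` and preserving parity is surjective -/
theorem psi_surj (ψ : R →* R) (ha : ψ ga = ga) (hs : par (l1 (ψ gs)) = -1)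
    (ht : par (l1 (ψ gt)) = 1) : Function.Surjective ψ := by
  obtain ⟨n1, hn1, i, j, hS⟩ := exists_nf (ψ gs)
  obtain ⟨n2, hn2, k, l, hT⟩ := exists_nf (ψ gt)
  have ls1 : l1 (ψ gs) = Multiplicative.ofAdd i := by rw [hS, l1_nf hn1]
  have ls2 : l2 (ψ gs) = Multiplicative.ofAdd j := by rw [hS, l2_nf hn1]
  have lt1 : l1 (ψ gt) = Multiplicative.ofAdd k := by rw [hT, l1_nf hn2]
  have lt2 : l2 (ψ gt) = Multiplicative.ofAdd l := by rw [hT, l2_nf hn2]
  rw [ls1] at hs
  rw [lt1] at ht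
  have hi := par_odd hs
  have hk := par_even ht
  have hrel := congrArg ψ isB.h4
  simp only [map_mul, map_inv, ha] at hrel
  rw [hS, hT, conj_nf hn1, conj_nf hn2] at hrel
  have hrel2 := congrArg (fun g => ff g 0) hrel
  simp only [map_mul ff ga, Equiv.Perm.mul_apply] at hrel2
  rw [ff_conj, ff_conj, ff_a, zero_add, zero_add, add_comm] at hrel2
  have hcase := unit_eq hrel2 hi hk
  -- surjectivity on the exponents
  have hex : ∀ p q : ℤ, ∃ r : R, l1 (ψ r) = Multiplicative.ofAdd p ∧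
      l2 (ψ r) = Multiplicative.ofAdd q := by
    intro p q
    have hgen : ∀ u v : ℤ, l1 (ψ (gs ^ u * gt ^ v)) = Multiplicative.ofAdd (u * i + v * k) ∧
        l2 (ψ (gs ^ u * gt ^ v)) = Multiplicative.ofAdd (u * j + v * l) := by
      intro u v
      rw [map_mul, map_mul, map_mul, map_zpow, map_zpow, map_zpow, map_zpow, map_zpow, map_zpow,
        ls1, lt1, ls2, lt2, ← ofAdd_zsmul, ← ofAdd_zsmul, ← ofAdd_zsmul, ← ofAdd_zsmul,
        ← ofAdd_add, ← ofAdd_add]
      simp only [smul_eq_mul, and_self]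
    rcases hcase with ⟨rfl, rfl, rfl, rfl⟩ | ⟨rfl, rfl, rfl, rfl⟩
    · refine ⟨gs ^ p * gt ^ q, ?_, ?_⟩
      · rw [(hgen p q).1]
        congr 1
        ring
      · rw [(hgen p q).2]
        congr 1
        ring
    · refine ⟨gs ^ p * gt ^ (-p - q), ?_, ?_⟩
      · rw [(hgen p _).1]
        congr 1
        ring
      · rw [(hgen p _).2]
        congr 1
        ring
  have ha' : ga ∈ ψ.range := ⟨ga, ha⟩
  have hconj : ∀ p q : ℤ, gs ^ p * gt ^ q * ga * (gs ^ p * gt ^ q)⁻¹ ∈ ψ.range := by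
    intro p q
    obtain ⟨r, h1, h2⟩ := hex p q
    obtain ⟨n, hn, h3⟩ := nf_of (ψ r) p q h1 h2
    rw [← conj_nf hn, ← h3]
    exact mul_mem (mul_mem ⟨r, rfl⟩ ha') (inv_mem ⟨r, rfl⟩)
  have hN : N ≤ ψ.range := by
    rintro x ⟨m, hm⟩
    have h1 : ∀ y ∈ BB ga gs, (gt ^ m)⁻¹ * y * gt ^ m ∈ ψ.range := by
      intro y hy
      induction hy using Subgroup.closure_induction with
      | mem y hy =>
        obtain ⟨p, rfl⟩ := hy
        have h2 := hconj p (-(m : ℤ))
        have hc : gs ^ p * gt ^ (-(m : ℤ)) = (gt ^ m)⁻¹ * gs ^ p := by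
          have h4 : Commute (gs ^ p) (gt ^ (-(m : ℤ))) := (isB.h2.zpow_left p).zpow_right _
          rw [h4.eq, zpow_neg, zpow_natCast]
        rw [hc] at h2
        have h3 : (gt ^ m)⁻¹ * cj ga gs p * gt ^ m =
            (gt ^ m)⁻¹ * gs ^ p * ga * ((gt ^ m)⁻¹ * gs ^ p)⁻¹ := by
          rw [cj, mul_inv_rev, inv_inv]
          simp only [mul_assoc]
        rw [h3]
        exact h2
      | one => rw [mul_one, inv_mul_cancel]; exact one_mem _
      | mul y z _ _ hy hz =>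
        have : (gt ^ m)⁻¹ * (y * z) * gt ^ m =
            ((gt ^ m)⁻¹ * y * gt ^ m) * ((gt ^ m)⁻¹ * z * gt ^ m) := by
          simp only [mul_assoc, mul_inv_cancel_left]
        rw [this]
        exact mul_mem hy hz
      | inv y _ hy =>
        have : (gt ^ m)⁻¹ * y⁻¹ * gt ^ m = ((gt ^ m)⁻¹ * y * gt ^ m)⁻¹ := by
          simp only [mul_inv_rev, inv_inv, mul_assoc]
        rw [this]
        exact inv_mem hy
    have h2 := h1 _ hm
    have h3 : (gt ^ m)⁻¹ * (gt ^ m * x * (gt ^ m)⁻¹) * gt ^ m = x := by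
      simp only [mul_assoc, inv_mul_cancel, mul_one, inv_mul_cancel_left]
    rwa [h3] at h2
  have hmem : ∀ g : R, g ∈ ψ.range := by
    intro g
    obtain ⟨n, hn, i', j', rfl⟩ := exists_nf g
    obtain ⟨r, h1, h2⟩ := hex i' j'
    obtain ⟨n', hn', h3⟩ := nf_of (ψ r) i' j' h1 h2
    have h4 : n * gs ^ i' * gt ^ j' = n * n'⁻¹ * ψ r := by
      rw [h3]
      simp only [mul_assoc, inv_mul_cancel_left]
    rw [h4]
    exact mul_mem (mul_mem (hN hn) (inv_mem (hN hn'))) ⟨r, rfl⟩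
  exact fun g => hmem g

/-- the normalised case -/
theorem rigid_aux2 (θ : W →* W) (hchi : ∀ z, chi (θ z) = chi z) (ha : θ (iR ga) = iR ga) (k : K)
    (hk5 : k ^ 5 = 1) (hk1 : k ≠ 1) (hk : θ (iK (DihedralGroup.r 1)) = iK k) :
    Function.Surjective θ := by
  have hN : ∀ n ∈ N, θ (iR n) ∈ iR.range := by
    intro n hn
    refine R_malnormal ga_ne (g := θ (iR n)) ?_
    have h1 : (θ (iR n))⁻¹ * iR ga * θ (iR n) = iR ga := by
      conv_lhs => rw [← ha]
      rw [← map_inv, ← map_mul, ← map_mul, ← map_inv, ← map_mul, ← map_mul]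
      have : n⁻¹ * ga * n = ga := by
        rw [(N_comm (inv_mem hn) ga_mem).eq, inv_mul_cancel_right]
      rw [this, ha]
    rw [h1]
    exact ⟨ga, rfl⟩
  have hR : ∀ r : R, θ (iR r) ∈ iR.range := by
    intro r
    refine R_malnormal ga_ne (g := θ (iR r)) ?_
    have h1 : (θ (iR r))⁻¹ * iR ga * θ (iR r) = θ (iR (r⁻¹ * ga * r)) := by
      conv_lhs => rw [← ha]
      rw [← map_inv, ← map_mul, ← map_mul, ← map_inv, ← map_mul, ← map_mul]
    rw [h1]
    apply hN
    have := N_conj_closure r⁻¹ ga ga_mem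
    rwa [inv_inv] at this
  choose f hf using hR
  let ψ : R →* R :=
    { toFun := f
      map_one' := iR_inj (by rw [hf, map_one iR, map_one θ])
      map_mul' := fun x y => iR_inj (by rw [hf, map_mul, map_mul, map_mul, hf, hf]) }
  have hψ : ∀ r, iR (ψ r) = θ (iR r) := hf
  have hsurj : Function.Surjective ψ := by
    refine psi_surj ψ ?_ ?_ ?_
    · exact iR_inj (by rw [hψ, ha])
    · rw [← chi_R, hψ, hchi, chi_R, l1_s]
      rfl
    · rw [← chi_R, hψ, hchi, chi_R, l1_t]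
      rfl
  have h1 : ∀ r, iR r ∈ θ.range := by
    intro r
    obtain ⟨r', rfl⟩ := hsurj r
    exact ⟨iR r', (hψ r').symm⟩
  have h2 : ∀ x, iK x ∈ θ.range := by
    intro x
    obtain ⟨n, m, hx⟩ := K_gen k hk5 hk1 x
    rw [hx, map_mul, map_pow, map_pow, ← iR_ga, ← hk]
    exact mul_mem (pow_mem (show θ (iK (DihedralGroup.r 1)) ∈ θ.range from ⟨_, rfl⟩) _)
      (pow_mem (h1 ga) _)
  intro z
  induction z using W_induction with
  | h1 r => exact h1 r
  | h2 x => exact h2 x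
  | h3 x y hx hy =>
    obtain ⟨x', rfl⟩ := hx
    obtain ⟨y', rfl⟩ := hy
    exact ⟨x' * y', map_mul _ _ _⟩

/-- conjugation of an endomorphism -/
theorem surj_of_conj (θ : W →* W) (g : W)
    (h : Function.Surjective ((MulAut.conj g).toMonoidHom.comp θ)) : Function.Surjective θ := by
  intro z
  obtain ⟨y, hy⟩ := h (g * z * g⁻¹)
  refine ⟨y, ?_⟩
  have h1 : g * θ y * g⁻¹ = g * z * g⁻¹ := hy
  exact mul_left_cancel (mul_right_cancel h1)

theorem chi_conj (g z : W) : chi (g * z * g⁻¹) = chi z := by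
  rw [map_mul, map_mul, mul_comm (chi g), map_inv, mul_inv_cancel_right]

theorem rigid_aux1 (θ : W →* W) (hinj : Function.Injective θ) (hchi : ∀ z, chi (θ z) = chi z)
    (x : R) (hx : x * x = 1) (hx1 : x ≠ 1) (ha : θ (iR ga) = iR x) : Function.Surjective θ := by
  obtain ⟨g, k, hg, hk5⟩ : ∃ (g : W) (k : K),
      θ (iK (DihedralGroup.r 1)) = g * iK k * g⁻¹ ∧ k ^ 5 = 1 := by
    have h5 : (θ (iK (DihedralGroup.r 1))) ^ 5 = 1 := by
      rw [← map_pow, ← map_pow, K_r5, map_one, map_one]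
    rcases W_torsion _ 5 (by norm_num) h5 with ⟨g, y, h1, h2⟩ | h
    · exfalso
      have h3 := odd_torsion y 2 h2
      rw [h3, map_one, mul_one, mul_inv_cancel] at h1
      have h4 : iK (DihedralGroup.r 1) = 1 := hinj (by rw [h1, map_one])
      exact K_r1 (iK_inj (by rw [h4, map_one]))
    · exact h
  have hk1 : k ≠ 1 := by
    rintro rfl
    rw [map_one, mul_one, mul_inv_cancel] at hg
    have h4 : iK (DihedralGroup.r 1) = 1 := hinj (by rw [hg, map_one])
    exact K_r1 (iK_inj (by rw [h4, map_one]))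
  -- `h` conjugates `k` into `K`
  have hrel : iR x * (g * iK k * g⁻¹) * (iR x)⁻¹ = (g * iK k * g⁻¹)⁻¹ := by
    rw [← hg, ← ha, ← map_inv θ, ← map_mul, ← map_mul, ← map_inv θ, iR_ga, ← map_inv iK,
      ← map_mul, ← map_mul, K_rel, map_inv]
  have hh : g⁻¹ * iR x * g ∈ iK.range := by
    have h1 : (g⁻¹ * iR x * g)⁻¹ ∈ iK.range := by
      refine K_conj hk5 hk1 ?_
      have h2 : ((g⁻¹ * iR x * g)⁻¹)⁻¹ * iK k * (g⁻¹ * iR x * g)⁻¹ =
          g⁻¹ * (iR x * (g * iK k * g⁻¹) * (iR x)⁻¹) * g := by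
        simp only [mul_inv_rev, inv_inv, mul_assoc]
      rw [h2, hrel]
      refine ⟨k⁻¹, ?_⟩
      rw [map_inv]
      simp only [mul_inv_rev, inv_inv, mul_assoc, inv_mul_cancel, mul_one, inv_mul_cancel_left]
    have h3 := inv_mem h1
    rwa [inv_inv] at h3
  obtain ⟨κ, hκ⟩ := hh
  have hκ2 : κ * κ = 1 := by
    apply iK_inj
    rw [map_mul, hκ, map_one]
    have : g⁻¹ * iR x * g * (g⁻¹ * iR x * g) = g⁻¹ * (iR (x * x)) * g := by
      rw [map_mul]
      simp only [mul_assoc, mul_inv_cancel_left]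
    rw [this, hx, map_one, mul_one, inv_mul_cancel]
  have hκ1 : κ ≠ 1 := by
    rintro rfl
    rw [map_one] at hκ
    have : iR x = 1 := by
      have h1 : iR x = g * (g⁻¹ * iR x * g) * g⁻¹ := by
        simp only [mul_assoc, mul_inv_cancel, mul_one, mul_inv_cancel_left]
      rw [h1, ← hκ, mul_one, mul_inv_cancel]
    exact hx1 (iR_inj (by rw [this, map_one]))
  obtain ⟨u, hu⟩ := K_invol κ hκ2 hκ1
  have hxx : (g * iK u) * iR ga * (g * iK u)⁻¹ = iR x := by
    have h1 : iR x = g * (g⁻¹ * iR x * g) * g⁻¹ := by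
      simp only [mul_assoc, mul_inv_cancel, mul_one, mul_inv_cancel_left]
    rw [h1, ← hκ, hu, iR_ga, map_mul, map_mul, map_inv]
    simp only [mul_inv_rev, mul_assoc]
  have hr : g * iK u ∈ iR.range := by
    have h1 : (g * iK u)⁻¹ ∈ iR.range := by
      refine R_malnormal ga_ne ?_
      rw [inv_inv, hxx]
      exact ⟨x, rfl⟩
    have h2 := inv_mem h1
    rwa [inv_inv] at h2
  obtain ⟨r, hr⟩ := hr
  refine surj_of_conj θ (iR r)⁻¹ ?_
  refine rigid_aux2 _ ?_ ?_ (u⁻¹ * k * u) ?_ ?_ ?_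
  · intro z
    change chi ((iR r)⁻¹ * θ z * (iR r)⁻¹⁻¹) = chi z
    rw [chi_conj, hchi]
  · change (iR r)⁻¹ * θ (iR ga) * (iR r)⁻¹⁻¹ = iR ga
    rw [ha, ← hxx, ← hr]
    simp only [inv_inv, mul_assoc, inv_mul_cancel, mul_one, inv_mul_cancel_left]
  · have : (u⁻¹ * k * u) ^ 5 = u⁻¹ * k ^ 5 * u := by
      have := conj_pow (a := u⁻¹) (b := k) (i := 5)
      rwa [inv_inv] at this
    rw [this, hk5, mul_one, inv_mul_cancel]
  · intro h
    apply hk1
    have : k = u * (u⁻¹ * k * u) * u⁻¹ := by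
      simp only [mul_assoc, mul_inv_cancel, mul_one, mul_inv_cancel_left]
    rw [this, h, mul_one, mul_inv_cancel]
  · change (iR r)⁻¹ * θ (iK (DihedralGroup.r 1)) * (iR r)⁻¹⁻¹ = _
    rw [hg, hr, map_mul, map_mul, map_inv]
    simp only [mul_inv_rev, inv_inv, mul_assoc, inv_mul_cancel_left]

/-- injective endomorphisms of `W` preserving the parity character are surjective -/
theorem rigid (θ : W →* W) (hinj : Function.Injective θ) (hchi : ∀ z, chi (θ z) = chi z) :
    Function.Surjective θ := by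
  have h2 : (θ (iR ga)) ^ 2 = 1 := by
    rw [← map_pow, ← map_pow, sq, isB.h1, map_one, map_one]
  have hne : θ (iR ga) ≠ 1 := by
    intro h
    have h4 : iR ga = 1 := hinj (by rw [h, map_one])
    exact ga_ne (iR_inj (by rw [h4, map_one]))
  obtain ⟨g, x, hg, hx⟩ : ∃ (g : W) (x : R), θ (iR ga) = g * iR x * g⁻¹ ∧ x * x = 1 := by
    rcases W_torsion _ 2 (by norm_num) h2 with ⟨g, x, h1, h3⟩ | ⟨g, k, h1, h3⟩
    · exact ⟨g, x, h1, by rw [← sq]; exact h3⟩
    · by_cases hk : k = 1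
      · exfalso
        rw [hk, map_one, mul_one, mul_inv_cancel] at h1
        exact hne h1
      · obtain ⟨u, hu⟩ := K_invol k (by rw [← sq]; exact h3) hk
        refine ⟨g * iK u, ga, ?_, isB.h1⟩
        rw [h1, hu, iR_ga, map_mul, map_mul, map_inv]
        simp only [mul_inv_rev, mul_assoc]
  refine surj_of_conj θ g⁻¹ ?_
  refine rigid_aux1 _ ?_ ?_ x hx ?_ ?_
  · intro a b hab
    apply hinj
    have h1 : g⁻¹ * θ a * g⁻¹⁻¹ = g⁻¹ * θ b * g⁻¹⁻¹ := hab
    exact mul_left_cancel (mul_right_cancel h1)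
  · intro z
    change chi (g⁻¹ * θ z * g⁻¹⁻¹) = chi z
    rw [chi_conj, hchi]
  · rintro rfl
    rw [map_one, mul_one, mul_inv_cancel] at hg
    exact hne hg
  · change g⁻¹ * θ (iR ga) * g⁻¹⁻¹ = iR x
    rw [hg]
    simp only [inv_inv, mul_assoc, inv_mul_cancel, mul_one, inv_mul_cancel_left]

end Pool.Agent.Y43.CH
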