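import Mathlib
import Pool.Agent.W386.Grp
import Pool.Agent.Y43.CH.Rigid

/-!
Co-hopficity, finite index extensions and finite index subgroups: the finitely presented example.
-/

set_option autoImplicit false

namespace Pool.Agent.Y43.CH

open Monoid

/-- A group is co-hopfian if each injective endomorphism is surjective. -/
def CoHopfian (G : Type) [Group G] : Prop :=
  ∀ f : G →* G, Function.Injective f → Function.Surjective f

/-- the symmetric group of degree three -/
abbrev D3 : Type := DihedralGroup 3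

/-- the sign -/
def sg : D3 →* ℤˣ where
  toFun x := match x with
    | .r _ => 1
    | .sr _ => -1
  map_one' := rfl
  map_mul' := by decide

/-- the splitting of the sign -/
def sec : ℤˣ →* D3 := invol (DihedralGroup.sr 0) (by decide)

theorem sg_sec (u : ℤˣ) : sg (sec u) = u := by
  rcases Int.units_eq_one_or u with rfl | rfl
  · rw [map_one, map_one]
  · rw [sec, invol_neg]
    rfl

/-- the overgroup -/
abbrev G : Type := W × D3

/-- the difference of the two characters -/
noncomputable def dif : G →* ℤˣ :=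
  (chi.comp (MonoidHom.fst W D3)) * (sg.comp (MonoidHom.snd W D3))

theorem dif_apply (w : W) (s : D3) : dif (w, s) = chi w * sg s := rfl

/-- the co-hopfian subgroup -/
noncomputable def H : Subgroup G := dif.ker

theorem mem_H {w : W} {s : D3} : (w, s) ∈ H ↔ chi w = sg s := by
  rw [H, MonoidHom.mem_ker, dif_apply]
  constructor
  · intro h
    have := eq_inv_of_mul_eq_one_left h
    rw [this, Int.units_inv_eq_self]
  · intro h
    rw [h, Int.units_mul_self]

theorem H_index : H.index = 2 := by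
  rw [H, Subgroup.index_ker]
  have : dif.range = ⊤ := by
    rw [MonoidHom.range_eq_top]
    intro u
    exact ⟨(1, sec u), by rw [dif_apply, map_one, one_mul, sg_sec]⟩
  rw [this]
  simp

theorem D3_three : ∀ s : D3, sg s = 1 → s ^ 3 = 1 := by decide

theorem D3_sign : ∀ s : D3, s ^ 3 = 1 → sg s = 1 := by decide

theorem D3_gen : ∀ x : D3, x ^ 3 = 1 → x ≠ 1 → ∀ y : D3, sg y = 1 → ∃ m : Fin 3,
    y = x ^ (m : ℕ) := by decide

theorem D3_conj : ∀ s x : D3, x ^ 3 = 1 → x ≠ 1 → ∀ u : D3, s * x * s⁻¹ = u * x * u⁻¹ →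
    sg s = sg u := by decide

/-- the splitting of the projection to `W` -/
noncomputable def si : W →* H where
  toFun w := ⟨(w, sec (chi w)), mem_H.mpr (sg_sec _).symm⟩
  map_one' := by
    apply Subtype.ext
    simp
  map_mul' x y := by
    apply Subtype.ext
    simp [map_mul]

/-- the rotation of order three -/
noncomputable def rh : H := ⟨(1, DihedralGroup.r 1), mem_H.mpr (by rw [map_one]; rfl)⟩

/-- elements of order three of `H` -/
theorem H_three (h : H) (h3 : h ^ 3 = 1) : h.1.1 = 1 ∧ h.1.2 ^ 3 = 1 := by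
  have h1 : (h.1 ^ 3 : G) = 1 := by
    have := congrArg Subtype.val h3
    simpa using this
  exact ⟨W_three _ (congrArg Prod.fst h1), congrArg Prod.snd h1⟩

theorem H_coHopfian : CoHopfian H := by
  intro θ hθ
  have hrh3 : rh ^ 3 = 1 := by
    apply Subtype.ext
    change ((1 : W), (DihedralGroup.r 1 : D3)) ^ 3 = 1
    refine Prod.ext (one_pow 3) ?_
    change (DihedralGroup.r 1 : D3) ^ 3 = 1
    decide
  have hrh1 : rh ≠ 1 := by
    intro h
    have h1 := congrArg (fun z : H => z.1.2) h
    change (DihedralGroup.r 1 : D3) = 1 at h1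
    exact absurd h1 (by decide)
  have hρ3 : θ rh ^ 3 = 1 := by rw [← map_pow, hrh3, map_one]
  have hρ1 : θ rh ≠ 1 := fun h => hrh1 (hθ (by rw [h, map_one]))
  obtain ⟨hρa, hρb⟩ := H_three _ hρ3
  have hρc : (θ rh).1.2 ≠ 1 := by
    intro h
    apply hρ1
    apply Subtype.ext
    exact Prod.ext hρa h
  let θ' : W →* W := (MonoidHom.fst W D3).comp (H.subtype.comp (θ.comp si))
  have hθ' : ∀ w, θ' w = (θ (si w)).1.1 := fun w => rfl
  have hmem : ∀ h : H, chi h.1.1 = sg h.1.2 := fun h => mem_H.mp h.2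
  have hinj : Function.Injective θ' := by
    rw [injective_iff_map_eq_one]
    intro w hw
    rw [hθ'] at hw
    have h1 : sg (θ (si w)).1.2 = 1 := by rw [← hmem, hw, map_one]
    have h2 : θ (si w) ^ 3 = 1 := by
      apply Subtype.ext
      refine Prod.ext ?_ ?_
      · change (θ (si w)).1.1 ^ 3 = 1
        rw [hw, one_pow]
      · change (θ (si w)).1.2 ^ 3 = 1
        exact D3_three _ h1
    have h3 : si w ^ 3 = 1 := hθ (by rw [map_pow, h2, map_one])
    exact (H_three _ h3).1
  have hchi : ∀ w, chi (θ' w) = chi w := by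
    intro w
    have h1 : si w * rh * (si w)⁻¹ = si w * rh * (si w)⁻¹ := rfl
    -- conjugation of the rotation only depends on the sign
    have h2 : si w * rh * (si w)⁻¹ = if chi w = 1 then rh else rh⁻¹ := by
      apply Subtype.ext
      rcases Int.units_eq_one_or (chi w) with hc | hc
      · rw [if_pos hc]
        refine Prod.ext ?_ ?_
        · change w * 1 * w⁻¹ = 1
          rw [mul_one, mul_inv_cancel]
        · change sec (chi w) * DihedralGroup.r 1 * (sec (chi w))⁻¹ = DihedralGroup.r 1
          rw [hc]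
          decide
      · rw [if_neg (by rw [hc]; decide)]
        refine Prod.ext ?_ ?_
        · change w * 1 * w⁻¹ = 1⁻¹
          rw [mul_one, mul_inv_cancel, inv_one]
        · change sec (chi w) * DihedralGroup.r 1 * (sec (chi w))⁻¹ = (DihedralGroup.r 1)⁻¹
          rw [hc]
          decide
    have h3 := congrArg θ h2
    rw [map_mul, map_mul, map_inv] at h3
    have h4 := congrArg (fun z : H => z.1.2) h3
    change (θ (si w)).1.2 * (θ rh).1.2 * ((θ (si w)).1.2)⁻¹ = _ at h4
    rw [hθ', hmem]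
    rcases Int.units_eq_one_or (chi w) with hc | hc
    · rw [if_pos hc] at h4
      rw [hc]
      have := D3_conj _ _ hρb hρc 1 (by rw [h4, one_mul, inv_one, mul_one])
      rw [this, map_one]
    · rw [if_neg (by rw [hc]; decide)] at h4
      rw [hc]
      have h5 : ∀ x : D3, x ^ 3 = 1 → x⁻¹ = DihedralGroup.sr 0 * x * (DihedralGroup.sr 0)⁻¹ := by
        decide
      have h6 : (θ rh⁻¹).1.2 = ((θ rh).1.2)⁻¹ := by
        rw [map_inv]
        rfl
      have := D3_conj _ _ hρb hρc (DihedralGroup.sr 0) (by rw [h4, h6, ← h5 _ hρb])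
      rw [this]
      rfl
  have hsurj := rigid θ' hinj hchi
  intro h
  obtain ⟨w, hw⟩ := hsurj h.1.1
  have h1 : sg ((θ (si w)).1.2⁻¹ * h.1.2) = 1 := by
    rw [map_mul, map_inv, ← hmem, ← hmem, ← hθ', hw, inv_mul_cancel]
  obtain ⟨m, hm⟩ := D3_gen _ hρb hρc _ h1
  refine ⟨si w * rh ^ (m : ℕ), ?_⟩
  rw [map_mul, map_pow]
  apply Subtype.ext
  refine Prod.ext ?_ ?_
  · change (θ (si w)).1.1 * (θ rh).1.1 ^ (m : ℕ) = _
    rw [hρa, one_pow, mul_one, ← hθ', hw]
  · change (θ (si w)).1.2 * (θ rh).1.2 ^ (m : ℕ) = _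
    rw [← hm, mul_inv_cancel_left]

theorem L1_T {T : W →* W} (h1 : ∀ r, T (iR r) = iR (fr r)) (h2 : ∀ k, T (iK k) = iK k) (w : W) :
    L1 (T w) = L1 w ^ 2 := by
  induction w using W_induction with
  | h1 r => rw [h1, L1_R, L1_R, l1_fr]
  | h2 k => rw [h2, L1_K, one_pow]
  | h3 x y hx hy => rw [map_mul, map_mul, map_mul, hx, hy, mul_pow]

theorem two_ne (z : Multiplicative ℤ) : z ^ 2 ≠ Multiplicative.ofAdd 1 := by
  intro h
  have h1 := congrArg Multiplicative.toAdd h
  rw [toAdd_pow, toAdd_ofAdd] at h1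
  simp only [nsmul_eq_mul] at h1
  push_cast at h1
  omega

theorem G_not_coHopfian : ¬ CoHopfian G := by
  obtain ⟨T, h1, h2, hT⟩ := exists_FW
  intro h
  have hinj : Function.Injective (MonoidHom.prodMap T (MonoidHom.id D3)) := by
    rintro ⟨a, b⟩ ⟨c, d⟩ hh
    have e1 : T a = T c := congrArg Prod.fst hh
    have e2 : b = d := congrArg Prod.snd hh
    rw [hT e1, e2]
  obtain ⟨⟨w, s⟩, hw⟩ := h _ hinj (iR gs, 1)
  have e1 : T w = iR gs := congrArg Prod.fst hw
  have e2 := L1_T h1 h2 w
  rw [e1, L1_R, l1_s] at e2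
  exact two_ne _ e2.symm

theorem G_fp : Group.IsFinitelyPresented G := by
  refine Pool.Agent.W386.fp_ext (MonoidHom.inl W D3) (fun a b h => congrArg Prod.fst h)
    (MonoidHom.snd W D3) (fun s => ⟨(1, s), rfl⟩) ?_ W_fp inferInstance
  ext x
  constructor
  · intro h
    refine ⟨x.1, ?_⟩
    have : x.2 = 1 := h
    exact Prod.ext rfl this.symm
  · rintro ⟨w, rfl⟩
    rfl

/-- the rotation subgroup inside `H` -/
noncomputable def jj : (sg.ker) →* H where
  toFun s := ⟨(1, s.1), mem_H.mpr (by rw [map_one]; exact s.2.symm)⟩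
  map_one' := rfl
  map_mul' x y := by
    apply Subtype.ext
    exact Prod.ext (one_mul 1).symm rfl

theorem H_fp : Group.IsFinitelyPresented H := by
  refine Pool.Agent.W386.fp_ext jj ?_ ((MonoidHom.fst W D3).comp H.subtype)
    (fun w => ⟨si w, rfl⟩) ?_ inferInstance W_fp
  · intro a b h
    apply Subtype.ext
    exact congrArg (fun z : H => z.1.2) h
  · ext x
    constructor
    · intro h
      have h1 : x.1.1 = 1 := h
      have h2 : sg x.1.2 = 1 := by
        rw [← mem_H.mp x.2]
        rw [h1, map_one]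
      refine ⟨⟨x.1.2, h2⟩, ?_⟩
      apply Subtype.ext
      exact Prod.ext h1.symm rfl
    · rintro ⟨s, rfl⟩
      rfl

/-- the character of `H` -/
noncomputable def chH : H →* ℤˣ := chi.comp ((MonoidHom.fst W D3).comp H.subtype)

/-- the subgroup of `H` that is not co-hopfian -/
noncomputable def H0 : Subgroup H := chH.ker

theorem mem_H0 (h : H) : h ∈ H0 ↔ chi h.1.1 = 1 := Iff.rfl

theorem chi_gs : chi (iR gs) = -1 := by
  rw [chi_R, l1_s]
  rfl

theorem H0_index : H0.index = 2 := by
  rw [H0, Subgroup.index_ker]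
  have : chH.range = ⊤ := by
    rw [MonoidHom.range_eq_top]
    intro u
    rcases Int.units_eq_one_or u with rfl | rfl
    · exact ⟨1, map_one _⟩
    · exact ⟨si (iR gs), chi_gs⟩
  rw [this]
  simp

theorem H0_not_coHopfian : ¬ CoHopfian H0 := by
  obtain ⟨T, h1, h2, hT⟩ := exists_FW
  intro h
  have hchT : ∀ w, chi (T w) = 1 := by
    intro w
    rw [chi, MonoidHom.comp_apply, L1_T h1 h2, map_pow]
    exact Int.units_sq _
  let f : H0 →* H0 :=
    { toFun := fun x => ⟨⟨(T x.1.1.1, x.1.1.2), mem_H.mpr (by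
          rw [hchT, ← mem_H.mp x.1.2]
          exact x.2.symm)⟩, hchT _⟩
      map_one' := by
        apply Subtype.ext
        apply Subtype.ext
        exact Prod.ext (map_one T) rfl
      map_mul' := by
        intro x y
        apply Subtype.ext
        apply Subtype.ext
        exact Prod.ext (map_mul T _ _) rfl }
  have hf : ∀ x : H0, (f x).1.1 = (T x.1.1.1, x.1.1.2) := fun x => rfl
  have hinj : Function.Injective f := by
    intro x y hxy
    have e0 := congrArg (fun z : H0 => z.1.1) hxy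
    simp only [hf] at e0
    have e1 : T x.1.1.1 = T y.1.1.1 := (Prod.mk.inj e0).1
    have e2 : x.1.1.2 = y.1.1.2 := (Prod.mk.inj e0).2
    apply Subtype.ext
    apply Subtype.ext
    exact Prod.ext (hT e1) e2
  obtain ⟨x, hx⟩ := h f hinj ⟨⟨(T (iR gs), 1), mem_H.mpr (by rw [hchT, map_one])⟩, hchT _⟩
  have e0 := congrArg (fun z : H0 => z.1.1.1) hx
  have e1 : T x.1.1.1 = T (iR gs) := e0
  have e2 := hT e1
  have e3 : chi x.1.1.1 = 1 := x.2
  rw [e2, chi_gs] at e3
  exact absurd e3 (by decide)

end Pool.Agent.Y43.CH
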